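import Pool.Agent.V5helper56.SY.Farkas

set_option autoImplicit false

/-!
# Gordan's theorem with natural weights
-/

namespace Pool.Agent.V5helper56.SY

open Finset

variable {U T : Type*} [AddCommGroup U] [Module ℚ U]

/-- either all the linear forms are positive at some point, or a nontrivial combination with natural
coefficients vanishes -/
theorem gordan (s : Finset T) (v : T → (U →ₗ[ℚ] ℚ)) :
    (∃ x, ∀ t ∈ s, 0 < v t x) ∨
      ∃ c : T → ℕ, (∃ t ∈ s, c t ≠ 0) ∧ ∀ x, ∑ t ∈ s, (c t : ℚ) * v t x = 0 := by
  classical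
  by_contra hcon
  push Not at hcon
  obtain ⟨h1, h2⟩ := hcon
  have key : ∀ t0 ∈ s, ∃ x : U, (∀ t ∈ s, 0 ≤ v t x) ∧ 0 < v t0 x := by
    intro t0 ht0
    by_contra hno
    push Not at hno
    let eq := s.equivFin
    obtain ⟨w, hw, hf⟩ := farkas_lin s.card
      (fun i => -v ((eq.symm i : s) : T)) (v t0) (by
        intro x hx
        apply hno
        intro t ht
        have := hx (eq ⟨t, ht⟩)
        simpa using this)
    let w' : T → ℚ := fun t => if ht : t ∈ s then w (eq ⟨t, ht⟩) else 0
    have hw' : ∀ t, 0 ≤ w' t := by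
      intro t
      simp only [w']
      split_ifs
      · exact hw _
      · exact le_refl _
    have hsum : ∀ x, v t0 x = - ∑ t ∈ s, w' t * v t x := by
      intro x
      rw [hf x, ← Finset.sum_coe_sort s (fun t => w' t * v t x),
        ← Finset.sum_neg_distrib, ← Equiv.sum_comp eq.symm]
      refine Finset.sum_congr rfl fun i _ => ?_
      have : w' ((eq.symm i : s) : T) = w i := by
        simp only [w']
        rw [dif_pos (eq.symm i).2]
        simp
      rw [this]
      simp
    -- rational weights
    let c : T → ℚ := fun t => w' t + if t = t0 then 1 else 0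
    have hc0 : ∀ t, 0 ≤ c t := by
      intro t
      have := hw' t
      simp only [c]
      split_ifs <;> linarith
    have hc1 : ∀ x, ∑ t ∈ s, c t * v t x = 0 := by
      intro x
      have h4 := hsum x
      simp only [c, add_mul, Finset.sum_add_distrib, ite_mul, one_mul, zero_mul]
      rw [Finset.sum_ite_eq' s t0, if_pos ht0]
      linarith
    have hc2 : 0 < c t0 := by
      have := hw' t0
      simp only [c, if_true]
      linarith
    obtain ⟨d, hd⟩ : ∃ d : ℕ, d = ∏ t ∈ s, (c t).den := ⟨_, rfl⟩
    have hdpos : 0 < d := by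
      rw [hd]
      exact Finset.prod_pos fun t _ => (c t).den_pos
    have hn : ∀ t ∈ s, ∃ n : ℕ, (n : ℚ) = d * c t := by
      intro t ht
      have h6 : (c t).den ∣ d := by
        rw [hd]
        exact Finset.dvd_prod_of_mem _ ht
      obtain ⟨e, he⟩ := h6
      have h7 : 0 ≤ (c t).num := Rat.num_nonneg.2 (hc0 t)
      refine ⟨e * (c t).num.toNat, ?_⟩
      have h8 : (((c t).num.toNat : ℕ) : ℚ) = (c t).num := by
        exact_mod_cast congrArg (Int.cast : ℤ → ℚ) (Int.toNat_of_nonneg h7)
      push_cast
      rw [h8, he]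
      push_cast
      have h9 : ((c t).den : ℚ) * c t = (c t).num := by
        rw [mul_comm]
        exact Rat.mul_den_eq_num (c t)
      calc (e : ℚ) * (c t).num = e * (((c t).den : ℚ) * c t) := by rw [h9]
        _ = _ := by ring
    choose! n hn' using hn
    obtain ⟨x, hx⟩ := h2 n ⟨t0, ht0, by
      have : (0 : ℚ) < n t0 := by
        rw [hn' t0 ht0]
        positivity
      intro h0
      rw [h0] at this
      simp at this⟩
    apply hx
    have : ∑ t ∈ s, (n t : ℚ) * v t x = d * ∑ t ∈ s, c t * v t x := by
      rw [Finset.mul_sum]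
      refine Finset.sum_congr rfl fun t ht => ?_
      rw [hn' t ht]
      ring
    rw [this, hc1, mul_zero]
  choose! x hx1 hx2 using key
  obtain ⟨t, ht, h3⟩ := h1 (∑ t ∈ s, x t)
  rw [map_sum] at h3
  have h4 : 0 < ∑ u ∈ s, v t (x u) :=
    Finset.sum_pos' (fun u hu => hx1 u hu t ht) ⟨t, ht, hx2 t ht⟩
  linarith

end Pool.Agent.V5helper56.SY
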