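import Mathlib

/-!
# The parity bound for exactly one-sided sum systems

Written by helper91 for helper56.
-/

namespace Pool.Agent.V5helper56.SY

open MvPolynomial Finset

set_option linter.unusedSectionVars false

namespace ParAux

variable {σ : Type*} [Fintype σ] [DecidableEq σ]

/-- The ideal generated by the squares of the variables. -/
noncomputable def sqI (σ : Type*) : Ideal (MvPolynomial σ (ZMod 2)) :=
  Ideal.span ((fun s => monomial s (1 : ZMod 2)) '' (Set.range (fun j : σ => Finsupp.single j 2)))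

/-- The full square free monomial. -/
noncomputable def full (σ : Type*) [Fintype σ] [DecidableEq σ] : σ →₀ ℕ :=
  ∑ j : σ, Finsupp.single j 1

lemma full_apply (j : σ) : full σ j = 1 := by
  classical
  unfold full
  rw [Finsupp.finsetSum_apply]
  simp [Finsupp.single_apply]

omit [Fintype σ] [DecidableEq σ] in
lemma X_sq_mem (j : σ) : (X j : MvPolynomial σ (ZMod 2)) ^ 2 ∈ sqI σ := by
  apply Ideal.subset_span
  refine ⟨Finsupp.single j 2, ⟨j, rfl⟩, ?_⟩
  simp [X_pow_eq_monomial]

lemma coeff_full_of_mem {p : MvPolynomial σ (ZMod 2)} (hp : p ∈ sqI σ) :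
    coeff (full σ) p = 0 := by
  by_contra h
  have h1 : full σ ∈ p.support := mem_support_iff.2 h
  unfold sqI at hp
  rw [mem_ideal_span_monomial_image] at hp
  obtain ⟨si, ⟨j, rfl⟩, hle⟩ := hp _ h1
  have := hle j
  rw [full_apply] at this
  simp at this

lemma coeff_zero_of_mem {p : MvPolynomial σ (ZMod 2)} (hp : p ∈ sqI σ) :
    coeff 0 p = 0 := by
  by_contra h
  have h1 : (0 : σ →₀ ℕ) ∈ p.support := mem_support_iff.2 h
  unfold sqI at hp
  rw [mem_ideal_span_monomial_image] at hp
  obtain ⟨si, ⟨j, rfl⟩, hle⟩ := hp _ h1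
  have := hle j
  simp at this

lemma prod_X_eq : (∏ j : σ, (X j : MvPolynomial σ (ZMod 2))) = monomial (full σ) 1 := by
  unfold full
  rw [monomial_sum_one]
  rfl

lemma coeff_full_of_totalDegree {p : MvPolynomial σ (ZMod 2)}
    (hp : p.totalDegree < Fintype.card σ) : coeff (full σ) p = 0 := by
  apply coeff_eq_zero_of_totalDegree_lt
  have : ∑ i ∈ (full σ).support, full σ i = Fintype.card σ := by
    have h1 : (full σ).support = Finset.univ := by
      ext j
      simp [full_apply]
    rw [h1]
    simp [full_apply]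
  rw [this]
  exact hp

lemma totalDegree_det_le {r : ℕ} (N : Matrix (Fin r) (Fin r) (MvPolynomial σ (ZMod 2)))
    (hN : ∀ i j, (N i j).totalDegree ≤ 1) : N.det.totalDegree ≤ r := by
  rw [Matrix.det_apply]
  apply totalDegree_finsetSum_le
  intro τ _
  have h2 : (Equiv.Perm.sign τ • ∏ i, N (τ i) i).totalDegree ≤ (∏ i, N (τ i) i).totalDegree := by
    rcases Int.units_eq_one_or (Equiv.Perm.sign τ) with h | h
    · rw [h]; simp
    · rw [h]; simp
  refine h2.trans ?_
  refine (totalDegree_finsetProd _ _).trans ?_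
  calc ∑ i : Fin r, (N (τ i) i).totalDegree ≤ ∑ _i : Fin r, 1 := Finset.sum_le_sum (fun i _ => hN _ _)
    _ = r := by simp

lemma block {R : Type*} [CommRing R] {ι κ : Type*} [Fintype ι] [DecidableEq ι] [Fintype κ]
    [DecidableEq κ] (M M' : Matrix (ι ⊕ κ) (ι ⊕ κ) R) (h : M * M' = 1) :
    M.det * M'.toBlocks₂₂.det = M.toBlocks₁₁.det := by
  have e1 : M * Matrix.fromBlocks 1 M'.toBlocks₁₂ 0 M'.toBlocks₂₂ =
      Matrix.fromBlocks M.toBlocks₁₁ 0 M.toBlocks₂₁ 1 := by
    have h' := h
    rw [← Matrix.fromBlocks_toBlocks M, ← Matrix.fromBlocks_toBlocks M', Matrix.fromBlocks_multiply,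
      ← Matrix.fromBlocks_one] at h'
    rw [Matrix.fromBlocks_inj] at h'
    obtain ⟨-, h12, -, h22⟩ := h'
    conv_lhs => rw [← Matrix.fromBlocks_toBlocks M]
    rw [Matrix.fromBlocks_multiply, h12, h22]
    simp
  have e2 := congrArg Matrix.det e1
  rw [Matrix.det_mul, Matrix.det_fromBlocks_zero₂₁, Matrix.det_fromBlocks_zero₁₂] at e2
  simpa using e2

lemma ext_equiv {G ι : Type*} [Fintype G] [Fintype ι] [DecidableEq G] (a : ι → G)
    (ha : Function.Injective a) (r : ℕ) (hr : Fintype.card G = Fintype.card ι + r) :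
    ∃ e : ι ⊕ Fin r ≃ G, ∀ i, e (Sum.inl i) = a i := by
  classical
  have hc : Fintype.card ((Set.range a)ᶜ : Set G) = r := by
    rw [Fintype.card_compl_set, Set.card_range_of_injective ha]
    omega
  refine ⟨(Equiv.sumCongr (Equiv.ofInjective a ha) (Fintype.equivFinOfCardEq hc).symm).trans
    (Equiv.Set.sumCompl (Set.range a)), fun i => ?_⟩
  simp [Equiv.Set.sumCompl_apply_inl]

/-- Weight inequality: if `J` takes every value other than `i0` at most once, and `i0` maximises
`v`, then the sum of `v ∘ J` is at least the sum of `v`. -/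
lemma weight {ι : Type*} [Fintype ι] [DecidableEq ι] (v : ι → ℚ) (i0 : ι) (hmax : ∀ i, v i ≤ v i0)
    (J : ι → ι) (hJ : ∀ i k, J i = J k → J i ≠ i0 → i = k) : ∑ i, v i ≤ ∑ i, v (J i) := by
  have h1 : ∑ i, (v i0 - v (J i)) ≤ ∑ i, (v i0 - v i) := by
    have h2 : ∑ i, (v i0 - v (J i)) = ∑ i ∈ univ.filter (fun i => J i ≠ i0), (v i0 - v (J i)) := by
      rw [Finset.sum_filter]
      apply Finset.sum_congr rfl
      intro i _
      by_cases h : J i = i0
      · simp [h]
      · simp [h]
    have h3 : ∑ i ∈ univ.filter (fun i => J i ≠ i0), (v i0 - v (J i)) =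
        ∑ j ∈ (univ.filter (fun i => J i ≠ i0)).image J, (v i0 - v j) := by
      rw [Finset.sum_image]
      intro x hx y hy hxy
      exact hJ x y hxy (by simpa using hx)
    rw [h2, h3]
    apply Finset.sum_le_sum_of_subset_of_nonneg (Finset.subset_univ _)
    intro i _ _
    linarith [hmax i]
  rw [Finset.sum_sub_distrib, Finset.sum_sub_distrib] at h1
  linarith

/-- The variable attached to an index (`1` for the distinguished one). -/
noncomputable def Zp {ι : Type*} [DecidableEq ι] (i0 : ι) (i : ι) :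
    MvPolynomial {j : ι // j ≠ i0} (ZMod 2) :=
  if h : i = i0 then 1 else X ⟨i, h⟩

lemma Zp_deg {ι : Type*} [DecidableEq ι] (i0 i : ι) : (Zp i0 i).totalDegree ≤ 1 := by
  unfold Zp
  split_ifs with h
  · simp
  · simp

lemma Zp_sq {ι : Type*} [DecidableEq ι] (i0 i : ι) (h : i ≠ i0) :
    Zp i0 i * Zp i0 i ∈ sqI {j : ι // j ≠ i0} := by
  unfold Zp
  rw [dif_neg h, ← pow_two]
  exact X_sq_mem _

section Core

variable {G : Type*} [AddCommGroup G] [Fintype G] [DecidableEq G] {ι : Type*} [Fintype ι]
  [DecidableEq ι]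

/-- First generating function. -/
noncomputable def hp (m : ι → G) (i0 : ι) (x : G) : MvPolynomial {j : ι // j ≠ i0} (ZMod 2) :=
  ∑ i, if x = m i then Zp i0 i else 0

/-- Second generating function. -/
noncomputable def hq (m : ι → G) (i0 : ι) (x : G) : MvPolynomial {j : ι // j ≠ i0} (ZMod 2) :=
  ∑ i, if x = m i0 + m i0 - m i then Zp i0 i else 0

lemma hq_deg (m : ι → G) (i0 : ι) (x : G) : (hq m i0 x).totalDegree ≤ 1 := by
  unfold hq
  apply totalDegree_finsetSum_le
  intro i _
  split_ifs
  · exact Zp_deg _ _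
  · simp

lemma hp_self (m : ι → G) (hm : Function.Injective m) (i0 i : ι) : hp m i0 (m i) = Zp i0 i := by
  unfold hp
  rw [Finset.sum_eq_single i]
  · simp
  · intro k _ hk
    rw [if_neg]
    intro h
    exact hk (hm h).symm
  · simp

lemma hp_none (m : ι → G) (i0 : ι) (x : G) (hx : ∀ i, x ≠ m i) : hp m i0 x = 0 := by
  unfold hp
  apply Finset.sum_eq_zero
  intro i _
  rw [if_neg (hx i)]

lemma char2 {σ : Type*} (p : MvPolynomial σ (ZMod 2)) : p + p = 0 := by
  have : (2 : MvPolynomial σ (ZMod 2)) = 0 := by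
    have := CharP.cast_eq_zero (MvPolynomial σ (ZMod 2)) 2
    exact_mod_cast this
  rw [← two_mul, this, zero_mul]

lemma conv_eq (m : ι → G) (i0 : ι) (u w : G) :
    ∑ v : G, hp m i0 (u + v) * hq m i0 (v + w) =
      ∑ i, if w - u = m i0 + m i0 - m i - m i then Zp i0 i * Zp i0 i else 0 := by
  have h1 : ∑ v : G, hp m i0 (u + v) * hq m i0 (v + w) =
      ∑ p : ι × ι, if w - u = m i0 + m i0 - m p.1 - m p.2 then Zp i0 p.1 * Zp i0 p.2 else 0 := by
    unfold hp hq
    simp_rw [Finset.sum_mul_sum]
    rw [Finset.sum_comm]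
    rw [Fintype.sum_prod_type]
    apply Finset.sum_congr rfl
    intro i _
    rw [Finset.sum_comm]
    apply Finset.sum_congr rfl
    intro j _
    rw [Finset.sum_eq_single (m i - u)]
    · have e1 : u + (m i - u) = m i := by abel
      rw [if_pos e1]
      have e2 : (m i - u + w = m i0 + m i0 - m j) ↔ (w - u = m i0 + m i0 - m i - m j) := by
        constructor
        · intro h
          have : w - u = (m i - u + w) - m i := by abel
          rw [this, h]; abel
        · intro h
          have : m i - u + w = (w - u) + m i := by abel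
          rw [this, h]; abel
      by_cases h : m i - u + w = m i0 + m i0 - m j
      · rw [if_pos h, if_pos (e2.1 h)]
      · rw [if_neg h, if_neg (fun hh => h (e2.2 hh)), mul_zero]
    · intro v _ hv
      have : ¬ (u + v = m i) := by
        intro h
        apply hv
        rw [← h]; abel
      rw [if_neg this, zero_mul]
    · simp
  rw [h1]
  rw [← Finset.sum_filter_add_sum_filter_not univ (fun p : ι × ι => p.1 = p.2)]
  have h2 : ∑ p ∈ univ.filter (fun p : ι × ι => ¬ p.1 = p.2),
      (if w - u = m i0 + m i0 - m p.1 - m p.2 then Zp i0 p.1 * Zp i0 p.2 else 0) = 0 := by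
    apply Finset.sum_involution (fun p _ => (p.2, p.1))
    · intro p _
      have e : (w - u = m i0 + m i0 - m p.1 - m p.2) ↔ (w - u = m i0 + m i0 - m p.2 - m p.1) := by
        have : m i0 + m i0 - m p.1 - m p.2 = m i0 + m i0 - m p.2 - m p.1 := by abel
        rw [this]
      by_cases h : w - u = m i0 + m i0 - m p.1 - m p.2
      · rw [if_pos h, if_pos (e.1 h), mul_comm (Zp i0 p.2)]
        exact char2 _
      · rw [if_neg h, if_neg (fun hh => h (e.2 hh)), add_zero]
    · intro p hp _ he
      simp only [Finset.mem_filter, Finset.mem_univ, true_and] at hp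
      apply hp
      have := congrArg Prod.fst he
      exact this.symm
    · intro p hp
      simp only [Finset.mem_filter, Finset.mem_univ, true_and] at hp ⊢
      exact fun hh => hp hh.symm
    · intro p _
      rfl
  rw [h2, add_zero]
  refine Finset.sum_bij' (fun p _ => p.1) (fun i _ => (i, i)) ?_ ?_ ?_ ?_ ?_
  · intro p _; exact Finset.mem_univ _
  · intro i _; simp
  · intro p hp
    simp only [Finset.mem_filter, Finset.mem_univ, true_and] at hp
    exact Prod.ext rfl hp
  · intro i _; rfl
  · intro p hp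
    simp only [Finset.mem_filter, Finset.mem_univ, true_and] at hp
    rw [hp]

lemma conv_q (m : ι → G) (i0 : ι) (u w : G) :
    Ideal.Quotient.mk (sqI {j : ι // j ≠ i0}) (∑ v : G, hp m i0 (u + v) * hq m i0 (v + w)) =
      if u = w then 1 else 0 := by
  rw [conv_eq, map_sum]
  rw [Finset.sum_eq_single i0]
  · have e : (w - u = m i0 + m i0 - m i0 - m i0) ↔ (u = w) := by
      have : m i0 + m i0 - m i0 - m i0 = 0 := by abel
      rw [this, sub_eq_zero]
      exact eq_comm
    by_cases h : u = w
    · rw [if_pos (e.2 h), if_pos h]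
      simp [Zp]
    · rw [if_neg (fun hh => h (e.1 hh)), if_neg h, map_zero]
  · intro i _ hi
    split_ifs
    · exact Ideal.Quotient.eq_zero_iff_mem.2 (Zp_sq i0 i hi)
    · exact map_zero _
  · simp

lemma prod_Zp (i0 : ι) : ∏ i, Zp i0 i = ∏ j : {j : ι // j ≠ i0}, (X j : MvPolynomial _ (ZMod 2)) := by
  have h1 : ∏ i, Zp i0 i = ∏ i ∈ univ.filter (fun i => i ≠ i0), Zp i0 i := by
    rw [Finset.prod_filter]
    apply Finset.prod_congr rfl
    intro i _
    by_cases h : i = i0
    · simp [h, Zp]
    · simp [h]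
  rw [h1, Finset.prod_subtype (p := fun i => i ≠ i0) _ (by intro x; simp)]
  apply Finset.prod_congr rfl
  intro j _
  unfold Zp
  rw [dif_neg j.2]

lemma det_q (a b : ι → G) (f g : ι → ℚ) (i0 : ι) (hmax : ∀ i, f i + g i ≤ f i0 + g i0)
    (hm : Function.Injective (fun i => a i + b i))
    (h : ∀ i j k, a j + b k = a i + b i → ¬ (j = i ∧ k = i) → f i + g i < f j + g k) :
    Ideal.Quotient.mk (sqI {j : ι // j ≠ i0})
      (Matrix.det (Matrix.of fun i k => hp (fun i => a i + b i) i0 (a i + b k))) =
      Ideal.Quotient.mk (sqI {j : ι // j ≠ i0}) (∏ j : {j : ι // j ≠ i0}, X j) := by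
  rw [Matrix.det_apply, map_sum]
  rw [Finset.sum_eq_single (1 : Equiv.Perm ι)]
  · congr 1
    rw [Equiv.Perm.sign_one, one_smul, ← prod_Zp]
    apply Finset.prod_congr rfl
    intro i _
    exact hp_self (fun i => a i + b i) hm i0 i
  · intro τ _ hτ
    rcases Int.units_eq_one_or (Equiv.Perm.sign τ) with hs | hs
    all_goals
      rw [hs]
      have key : Ideal.Quotient.mk (sqI {j : ι // j ≠ i0})
          (∏ i, hp (fun i => a i + b i) i0 (a (τ i) + b i)) = 0 := by
        by_contra hne
        have h1 : ∀ i, ∃ j, a (τ i) + b i = a j + b j := by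
          intro i
          by_contra hno
          push Not at hno
          apply hne
          rw [Finset.prod_eq_zero (Finset.mem_univ i) (hp_none (fun i => a i + b i) i0 _ hno), map_zero]
        choose J hJ using h1
        have h2 : ∏ i, hp (fun i => a i + b i) i0 (a (τ i) + b i) = ∏ i, Zp i0 (J i) := by
          apply Finset.prod_congr rfl
          intro i _
          rw [hJ i]
          exact hp_self (fun i => a i + b i) hm i0 (J i)
        rw [h2] at hne
        have h3 : ∀ i k, J i = J k → J i ≠ i0 → i = k := by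
          intro i k hik hi0
          by_contra hik'
          apply hne
          rw [Ideal.Quotient.eq_zero_iff_mem]
          rw [← Finset.mul_prod_erase univ _ (Finset.mem_univ i)]
          rw [← Finset.mul_prod_erase (univ.erase i) _
            (Finset.mem_erase.2 ⟨fun hh => hik' hh.symm, Finset.mem_univ k⟩)]
          rw [← mul_assoc]
          apply Ideal.mul_mem_right
          rw [← hik]
          exact Zp_sq i0 _ hi0
        have h4 := weight (fun i => f i + g i) i0 hmax J h3
        have h5 : ∑ i, (f (τ i) + g i) = ∑ i, (f i + g i) := by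
          rw [Finset.sum_add_distrib, Finset.sum_add_distrib, Equiv.sum_comp τ f]
        have h6 : ∀ i, f (J i) + g (J i) ≤ f (τ i) + g i := by
          intro i
          by_cases hc : τ i = J i ∧ i = J i
          · rw [hc.1, ← hc.2]
          · exact (h (J i) (τ i) i (hJ i) hc).le
        apply hτ
        by_contra hτ'
        have h7 : ∃ i, ¬ (τ i = J i ∧ i = J i) := by
          by_contra hall
          push Not at hall
          apply hτ'
          ext i
          rw [Equiv.Perm.one_apply, (hall i).1]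
          exact (hall i).2.symm
        obtain ⟨i, hi⟩ := h7
        have h8 : ∑ i, (f (J i) + g (J i)) < ∑ i, (f (τ i) + g i) :=
          Finset.sum_lt_sum (fun k _ => h6 k) ⟨i, Finset.mem_univ i, h (J i) (τ i) i (hJ i) hi⟩
        rw [h5] at h8
        exact absurd h4 (not_le.2 h8)
      first
        | rw [one_smul]; exact key
        | (rw [Units.neg_smul, one_smul, map_neg]
           refine (congrArg Neg.neg ?_).trans neg_zero
           exact key)
  · simp

end Core

end ParAux

open ParAux in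
/-- The parity bound. -/
theorem par {G : Type*} [AddCommGroup G] [Fintype G] [DecidableEq G] {ι : Type*} [Fintype ι]
    [DecidableEq ι] (a b : ι → G) (ha : Function.Injective a) (hb : Function.Injective b)
    (f g : ι → ℚ)
    (h : ∀ i j k, a j + b k = a i + b i → ¬ (j = i ∧ k = i) → f i + g i < f j + g k) :
    2 * Fintype.card ι ≤ Fintype.card G + 1 := by
  classical
  by_contra hcon
  push Not at hcon
  obtain ⟨r, hr⟩ : ∃ r, Fintype.card G = Fintype.card ι + r :=
    Nat.exists_eq_add_of_le (Fintype.card_le_of_injective a ha)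
  have hs : r + 1 < Fintype.card ι := by omega
  have : Nonempty ι := Fintype.card_pos_iff.1 (by omega)
  obtain ⟨i0, hmax⟩ := Finite.exists_max (fun i => f i + g i)
  have hm : Function.Injective (fun i => a i + b i) := by
    intro i j hij
    by_contra hne
    have h1 := h i j j hij.symm (fun hh => hne hh.1.symm)
    have h2 := h j i i hij (fun hh => hne hh.1)
    exact absurd h1 (not_lt.2 h2.le)
  obtain ⟨ea, hea⟩ := ext_equiv a ha r hr
  obtain ⟨eb, heb⟩ := ext_equiv b hb r hr
  set m : ι → G := fun i => a i + b i with hmdef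
  set q := Ideal.Quotient.mk (sqI {j : ι // j ≠ i0}) with hq0
  let M1 : Matrix (ι ⊕ Fin r) (ι ⊕ Fin r) (MvPolynomial {j : ι // j ≠ i0} (ZMod 2)) :=
    Matrix.of fun u v => hp m i0 (ea u + eb v)
  let M2 : Matrix (ι ⊕ Fin r) (ι ⊕ Fin r) (MvPolynomial {j : ι // j ≠ i0} (ZMod 2)) :=
    Matrix.of fun v w => hq m i0 (eb v + ea w)
  have hM : (M1.map q) * (M2.map q) = 1 := by
    rw [← Matrix.map_mul]
    ext u w
    rw [Matrix.map_apply, Matrix.mul_apply, Matrix.one_apply]
    have e1 : ∑ v, M1 u v * M2 v w = ∑ v : G, hp m i0 (ea u + v) * hq m i0 (v + ea w) :=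
      Equiv.sum_comp eb (fun v => hp m i0 (ea u + v) * hq m i0 (v + ea w))
    rw [e1, conv_q]
    by_cases huw : u = w
    · rw [if_pos huw, if_pos (by rw [huw])]
    · rw [if_neg huw, if_neg (fun hh => huw (ea.injective hh))]
  let S' : Matrix (Fin r) (Fin r) (MvPolynomial {j : ι // j ≠ i0} (ZMod 2)) :=
    Matrix.of fun k l => hq m i0 (eb (Sum.inr k) + ea (Sum.inr l))
  let P : Matrix ι ι (MvPolynomial {j : ι // j ≠ i0} (ZMod 2)) :=
    Matrix.of fun i k => hp m i0 (a i + b k)
  have hP : (M1.map q).toBlocks₁₁ = P.map q := by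
    ext i k
    simp [Matrix.toBlocks₁₁, M1, P, hea, heb]
  have hS : (M2.map q).toBlocks₂₂ = S'.map q := by
    ext i k
    simp [Matrix.toBlocks₂₂, M2, S']
  have hB := block (M1.map q) (M2.map q) hM
  rw [hP, hS] at hB
  have d1 : (M1.map q).det = q M1.det := (RingHom.map_det q M1).symm
  have d2 : (M2.map q).det = q M2.det := (RingHom.map_det q M2).symm
  have d3 : (P.map q).det = q P.det := (RingHom.map_det q P).symm
  have d4 : (S'.map q).det = q S'.det := (RingHom.map_det q S').symm
  have hdet : q M1.det * q M2.det = 1 := by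
    rw [← d1, ← d2, ← Matrix.det_mul, hM, Matrix.det_one]
  rw [d1, d3, d4] at hB
  have hPd : q P.det = q (∏ j : {j : ι // j ≠ i0}, X j) := det_q a b f g i0 hmax hm h
  have hSd : q S'.det = q (M2.det * ∏ j : {j : ι // j ≠ i0}, X j) := by
    rw [map_mul, ← hPd, ← hB]
    calc q S'.det = (q M1.det * q M2.det) * q S'.det := by rw [hdet, one_mul]
      _ = q M2.det * (q M1.det * q S'.det) := by ring
  have hmem : S'.det - M2.det * ∏ j : {j : ι // j ≠ i0}, X j ∈ sqI {j : ι // j ≠ i0} :=
    Ideal.Quotient.eq.1 hSd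
  have c1 := coeff_full_of_mem hmem
  rw [coeff_sub, prod_X_eq] at c1
  have c2 : coeff (full {j : ι // j ≠ i0}) (M2.det * monomial (full {j : ι // j ≠ i0}) 1) =
      coeff 0 M2.det := by
    have := coeff_mul_monomial (0 : {j : ι // j ≠ i0} →₀ ℕ) (full {j : ι // j ≠ i0}) (1 : ZMod 2) M2.det
    rw [zero_add, mul_one] at this
    exact this
  have hcard : Fintype.card {j : ι // j ≠ i0} = Fintype.card ι - 1 := by
    rw [Fintype.card_subtype_compl, Fintype.card_subtype_eq]
  have c3 : coeff (full {j : ι // j ≠ i0}) S'.det = 0 := by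
    apply coeff_full_of_totalDegree
    have := totalDegree_det_le S' (fun i j => hq_deg _ _ _)
    omega
  have c4 : coeff 0 M2.det = 0 := by
    rw [c2, c3, zero_sub, neg_eq_zero] at c1
    exact c1
  have hmem2 : M1.det * M2.det - 1 ∈ sqI {j : ι // j ≠ i0} := by
    apply Ideal.Quotient.eq.1
    rw [map_mul, map_one]
    exact hdet
  have c5 := coeff_zero_of_mem hmem2
  rw [← constantCoeff_eq, map_sub, map_mul, map_one] at c5
  rw [← constantCoeff_eq] at c4
  rw [c4] at c5
  simp at c5

/-! ### Resets for even bases -/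

namespace ParAux

/-- Even half of the domino at `Y`. -/
def evenHalf (c : ℕ) {b : ℕ} (Y : ZMod b) : ZMod c := (((Y.val + 1) / 2 : ℕ) : ZMod c)

/-- Odd half of the domino at `Y`. -/
def oddHalf (c : ℕ) {b : ℕ} (Y : ZMod b) : ZMod c := ((Y.val / 2 : ℕ) : ZMod c)

lemma double_cast {c x y : ℕ} (h : (x : ZMod c) = (y : ZMod c)) :
    ((2 * x : ℕ) : ZMod (2 * c)) = ((2 * y : ℕ) : ZMod (2 * c)) := by
  rw [ZMod.natCast_eq_natCast_iff] at h ⊢
  exact Nat.ModEq.mul_left' 2 h

/-- parity indicator of the representative -/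
def par2 {b : ℕ} (Y : ZMod b) : ℕ := Y.val % 2

lemma par2_le {b : ℕ} (Y : ZMod b) : par2 Y ≤ 1 := by unfold par2; omega

lemma two_even {c : ℕ} (hc : 0 < c) (Y : ZMod (2 * c)) :
    ((2 * ((Y.val + 1) / 2) : ℕ) : ZMod (2 * c)) = Y + (par2 Y : ℕ) := by
  have : NeZero (2 * c) := ⟨by omega⟩
  have h1 : 2 * ((Y.val + 1) / 2) = Y.val + par2 Y := by unfold par2; omega
  rw [h1, Nat.cast_add, ZMod.natCast_zmod_val]

lemma two_odd {c : ℕ} (hc : 0 < c) (Y : ZMod (2 * c)) :
    ((2 * (Y.val / 2) : ℕ) : ZMod (2 * c)) = Y - (par2 Y : ℕ) := by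
  have : NeZero (2 * c) := ⟨by omega⟩
  have h1 : Y.val = 2 * (Y.val / 2) + par2 Y := by unfold par2; omega
  have h2 : ((Y.val : ℕ) : ZMod (2 * c)) = Y := ZMod.natCast_zmod_val Y
  have h3 : (Y : ZMod (2 * c)) = ((2 * (Y.val / 2) + par2 Y : ℕ) : ZMod (2 * c)) := by
    rw [← h1]; exact h2.symm
  rw [Nat.cast_add] at h3
  exact eq_sub_of_add_eq h3.symm

end ParAux

open ParAux in
/-- Even bases: a set of digits with a strict one-sided weight system for sums with borrows has at
most `(b + 2) / 4` elements. -/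
theorem reset_even {b : ℕ} (hb : Even b) (hb0 : 0 < b) (D : Finset (ZMod b)) (φ : ZMod b → ℚ)
    (γ : ℚ)
    (h : ∀ X ∈ D, ∀ Y ∈ D, ∀ Z ∈ D, ∀ e : ℤ, (e = -1 ∨ e = 0 ∨ e = 1) → X + Z = 2 * Y - e →
      ¬ (e = 0 ∧ X = Y ∧ Z = Y) → γ * e < φ X + φ Z - 2 * φ Y) :
    4 * D.card ≤ b + 2 := by
  obtain ⟨c, hc⟩ := hb
  obtain rfl : b = 2 * c := by omega
  have hc0 : 0 < c := by omega
  have : NeZero c := ⟨by omega⟩
  have : NeZero (2 * c) := ⟨by omega⟩
  -- `d` and `d + 1` are never both in `D`
  have hno : ∀ d ∈ D, d + 1 ∉ D := by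
    intro d hd hd1
    have h1 := h d hd d hd (d + 1) hd1 (-1) (Or.inl rfl) (by push_cast; ring) (by omega)
    have h2 := h d hd (d + 1) hd1 (d + 1) hd1 1 (Or.inr (Or.inr rfl)) (by push_cast; ring)
      (by omega)
    push_cast at h1 h2
    linarith
  have hpar : ∀ Y : ZMod (2 * c), par2 Y = 0 ∨ par2 Y = 1 := by
    intro Y
    have := par2_le Y
    omega
  have key := par (G := ZMod c) (ι := {x // x ∈ D}) (fun Y => evenHalf c Y.1)
    (fun Y => oddHalf c Y.1) ?_ ?_
    (fun Y => φ Y.1 + γ / 2 - γ * (par2 Y.1 : ℚ)) (fun Y => φ Y.1 - γ / 2 + γ * (par2 Y.1 : ℚ)) ?_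
  · rw [Fintype.card_coe, ZMod.card] at key
    omega
  · intro X Y hXY
    have h1 := double_cast hXY
    rw [two_even hc0, two_even hc0] at h1
    rcases hpar X.1 with hx | hx <;> rcases hpar Y.1 with hy | hy
    · rw [hx, hy] at h1
      exact Subtype.ext (by simpa using h1)
    · rw [hx, hy] at h1
      exfalso
      apply hno Y.1 Y.2
      have : X.1 = Y.1 + 1 := by simpa using h1
      rw [← this]; exact X.2
    · rw [hx, hy] at h1
      exfalso
      apply hno X.1 X.2
      have : X.1 + 1 = Y.1 := by simpa using h1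
      rw [this]; exact Y.2
    · rw [hx, hy] at h1
      exact Subtype.ext (by simpa using h1)
  · intro X Y hXY
    have h1 := double_cast hXY
    rw [two_odd hc0, two_odd hc0] at h1
    rcases hpar X.1 with hx | hx <;> rcases hpar Y.1 with hy | hy
    · rw [hx, hy] at h1
      exact Subtype.ext (by simpa using h1)
    · rw [hx, hy] at h1
      exfalso
      apply hno X.1 X.2
      have : X.1 + 1 = Y.1 := by
        have h2 : X.1 = Y.1 - 1 := by simpa using h1
        rw [h2]; ring
      rw [this]; exact Y.2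
    · rw [hx, hy] at h1
      exfalso
      apply hno Y.1 Y.2
      have : X.1 = Y.1 + 1 := by
        have h2 : X.1 - 1 = Y.1 := by simpa using h1
        rw [← h2]; ring
      rw [← this]; exact X.2
    · rw [hx, hy] at h1
      exact Subtype.ext (by simpa using h1)
  · intro Y X Z hsum hne
    have h0 : ((((X.1.val + 1) / 2 + Z.1.val / 2 : ℕ)) : ZMod c) =
        (((Y.1.val + 1) / 2 + Y.1.val / 2 : ℕ) : ZMod c) := by
      push_cast
      exact hsum
    have h1 := double_cast h0
    rw [mul_add, mul_add, Nat.cast_add, Nat.cast_add, two_even hc0, two_odd hc0, two_even hc0,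
      two_odd hc0] at h1
    have h2 : X.1 + Z.1 = 2 * Y.1 - (((par2 X.1 : ℤ) - (par2 Z.1 : ℤ) : ℤ) : ZMod (2 * c)) := by
      push_cast
      have h3 : X.1 + Z.1 = (X.1 + (par2 X.1 : ℕ) + (Z.1 - (par2 Z.1 : ℕ))) -
        ((par2 X.1 : ℕ) - (par2 Z.1 : ℕ)) := by ring
      rw [h3, h1]
      ring
    have h4 := h X.1 X.2 Y.1 Y.2 Z.1 Z.2 ((par2 X.1 : ℤ) - (par2 Z.1 : ℤ))
      (by
        rcases hpar X.1 with hx | hx <;> rcases hpar Z.1 with hz | hz <;> rw [hx, hz] <;> norm_num)
      h2 (fun hh => hne ⟨Subtype.ext hh.2.1, Subtype.ext hh.2.2⟩)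
    push_cast at h4
    linarith

end Pool.Agent.V5helper56.SY
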