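import Mathlib

set_option autoImplicit false

/-!
# Closed walks in directed multigraphs
-/

namespace Pool.Agent.V5helper56.SY

variable {T V : Type} [DecidableEq T] [DecidableEq V]

/-- `l` is a walk from `a` to `b`. -/
def IsWalk (src dst : T → V) : List T → V → V → Prop
  | [], a, b => a = b
  | t :: l, a, b => src t = a ∧ IsWalk src dst l (dst t) b

variable {src dst : T → V}

omit [DecidableEq T] [DecidableEq V] in
theorem IsWalk.append : ∀ {l l' : List T} {a b c : V}, IsWalk src dst l a b →
    IsWalk src dst l' b c → IsWalk src dst (l ++ l') a c := by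
  intro l
  induction l with
  | nil =>
    intro l' a b c h1 h2
    have h1' : a = b := h1
    subst h1'
    exact h2
  | cons t l ih =>
    intro l' a b c h1 h2
    exact ⟨h1.1, ih h1.2 h2⟩

omit [DecidableEq T] [DecidableEq V] in
theorem IsWalk.split : ∀ {l l' : List T} {a c : V}, IsWalk src dst (l ++ l') a c →
    ∃ b, IsWalk src dst l a b ∧ IsWalk src dst l' b c := by
  intro l
  induction l with
  | nil =>
    intro l' a c h
    exact ⟨a, rfl, h⟩
  | cons t l ih =>
    intro l' a c h
    obtain ⟨b, h1, h2⟩ := ih h.2
    exact ⟨b, ⟨h.1, h1⟩, h2⟩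

omit [DecidableEq T] [DecidableEq V] in
theorem IsWalk.bal : ∀ {l : List T} {a b : V}, IsWalk src dst l a b →
    ((l : Multiset T).map src) + {b} = {a} + (l : Multiset T).map dst := by
  intro l
  induction l with
  | nil =>
    intro a b h
    have h' : a = b := h
    subst h'
    simp
  | cons t l ih =>
    intro a b h
    have h1 := ih h.2
    rw [← Multiset.cons_coe, Multiset.map_cons, Multiset.map_cons, Multiset.cons_add, h1, h.1]
    rw [← Multiset.singleton_add, ← Multiset.singleton_add (dst t)]

theorem bal_sub {M : Multiset T} (hM : M.map src = M.map dst) {l : List T} {a b : V}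
    (hl : IsWalk src dst l a b) (hle : (l : Multiset T) ≤ M) :
    ((M - l).map src) + {a} = (M - l).map dst + {b} := by
  have h1 := hl.bal
  have h2 : M = (M - l) + l := (tsub_add_cancel_of_le hle).symm
  have h3 : (M - l).map src + (l : Multiset T).map src = (M - l).map dst +
      (l : Multiset T).map dst := by
    rw [← Multiset.map_add, ← Multiset.map_add, ← h2]
    exact hM
  have h4 : (M - l).map src + {a} + (l : Multiset T).map dst =
      (M - l).map dst + {b} + (l : Multiset T).map dst := by
    calc (M - l).map src + {a} + (l : Multiset T).map dst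
        = (M - l).map src + ({a} + (l : Multiset T).map dst) := by rw [add_assoc]
      _ = (M - l).map src + (l : Multiset T).map src + {b} := by rw [← h1, add_assoc]
      _ = _ := by
          rw [h3, add_assoc, add_assoc]
          congr 1
          exact add_comm _ _
  exact add_right_cancel h4

theorem greedy {M : Multiset T} (hM : M.map src = M.map dst) : ∀ (k : ℕ) (l : List T) (a b : V),
    M.card ≤ l.length + k → l ≠ [] → IsWalk src dst l a b → (l : Multiset T) ≤ M →
    ∃ l' : List T, l' ≠ [] ∧ IsWalk src dst l' a a ∧ (l' : Multiset T) ≤ M := by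
  intro k
  induction k with
  | zero =>
    intro l a b hk hne hl hle
    rcases eq_or_ne a b with rfl | hab
    · exact ⟨l, hne, hl, hle⟩
    · exfalso
      have h1 := bal_sub hM hl hle
      have h2 : (l : Multiset T) = M := Multiset.eq_of_le_of_card_le hle (by simpa using hk)
      rw [h2, tsub_self] at h1
      simp only [Multiset.map_zero, zero_add] at h1
      exact hab (Multiset.singleton_inj.1 h1)
  | succ k ih =>
    intro l a b hk hne hl hle
    rcases eq_or_ne a b with rfl | hab
    · exact ⟨l, hne, hl, hle⟩
    · have h1 := bal_sub hM hl hle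
      have h2 : b ∈ (M - l).map src + {a} := by
        rw [h1]
        exact Multiset.mem_add.2 (Or.inr (Multiset.mem_singleton_self b))
      rcases Multiset.mem_add.1 h2 with h3 | h3
      · obtain ⟨t, ht, htb⟩ := Multiset.mem_map.1 h3
        refine ih (l ++ [t]) a (dst t) ?_ (by simp) (hl.append ⟨htb, rfl⟩) ?_
        · rw [List.length_append, List.length_singleton]
          omega
        · rw [← Multiset.coe_add]
          have h4 : ({t} : Multiset T) ≤ M - l := Multiset.singleton_le.2 ht
          calc (l : Multiset T) + ([t] : List T) ≤ l + (M - l) := by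
                gcongr
                simpa using ht
            _ = M := add_tsub_cancel_of_le hle
      · exact absurd (Multiset.mem_singleton.1 h3).symm hab

theorem euler {M : Multiset T} (hM : M.map src = M.map dst) {v0 : V}
    (hconn : ∀ U : Set V, v0 ∈ U → (∃ t ∈ M, src t ∉ U) →
      ∃ t ∈ M, (src t ∈ U ∧ dst t ∉ U) ∨ (src t ∉ U ∧ dst t ∈ U)) :
    ∀ (k : ℕ) (W : List T), M.card ≤ W.length + k → IsWalk src dst W v0 v0 →
      (W : Multiset T) ≤ M → ∃ W' : List T, IsWalk src dst W' v0 v0 ∧ (W' : Multiset T) = M := by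
  intro k
  induction k with
  | zero =>
    intro W hk hW hle
    exact ⟨W, hW, Multiset.eq_of_le_of_card_le hle (by simpa using hk)⟩
  | succ k ih =>
    intro W hk hW hle
    by_cases hR : M - W = 0
    · exact ⟨W, hW, le_antisymm hle (tsub_eq_zero_iff_le.1 hR)⟩
    -- the remainder is balanced
    have hRb : (M - W).map src = (M - W).map dst := by
      have := bal_sub hM hW hle
      exact add_right_cancel this
    let Vis : Set V := {v | ∃ W1 W2 : List T, W = W1 ++ W2 ∧ IsWalk src dst W1 v0 v ∧
      IsWalk src dst W2 v v0}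
    have hv0 : v0 ∈ Vis := ⟨[], W, rfl, rfl, hW⟩
    have hWv : ∀ t ∈ W, src t ∈ Vis ∧ dst t ∈ Vis := by
      intro t ht
      obtain ⟨W1, W2, hWW⟩ := List.append_of_mem ht
      rw [hWW] at hW
      obtain ⟨c, h1, h2⟩ := hW.split
      obtain ⟨h3, h4⟩ := h2
      subst h3
      refine ⟨⟨W1, t :: W2, hWW, h1, rfl, h4⟩, ⟨W1 ++ [t], W2, by simp [hWW],
        h1.append ⟨rfl, rfl⟩, h4⟩⟩
    obtain ⟨t, htR, htV⟩ : ∃ t ∈ M - W, src t ∈ Vis := by
      by_contra hcon
      push Not at hcon
      have hdst : ∀ t ∈ M - W, dst t ∉ Vis := by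
        intro t ht
        have h1 : dst t ∈ (M - W).map src := by
          rw [hRb]
          exact Multiset.mem_map_of_mem _ ht
        obtain ⟨t', ht', he⟩ := Multiset.mem_map.1 h1
        rw [← he]
        exact hcon t' ht'
      obtain ⟨t0, ht0⟩ := Multiset.exists_mem_of_ne_zero hR
      obtain ⟨t, htM, hcross⟩ := hconn Vis hv0 ⟨t0, Multiset.mem_of_le tsub_le_self ht0,
        hcon t0 ht0⟩
      have h1 : t ∈ (M - W) + (W : Multiset T) := by
        rwa [tsub_add_cancel_of_le hle]
      rcases Multiset.mem_add.1 h1 with h2 | h2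
      · rcases hcross with ⟨h3, -⟩ | ⟨-, h3⟩
        · exact hcon t h2 h3
        · exact hdst t h2 h3
      · obtain ⟨h3, h4⟩ := hWv t (Multiset.mem_coe.1 h2)
        rcases hcross with ⟨-, h5⟩ | ⟨h5, -⟩
        · exact h5 h4
        · exact h5 h3
    obtain ⟨W1, W2, hWW, hW1, hW2⟩ := htV
    obtain ⟨l, hne, hl, hlR⟩ := greedy hRb ((M - W).card) [t] (src t) (dst t) (by omega)
      (by simp) ⟨rfl, rfl⟩ (by simpa using htR)
    refine ih (W1 ++ (l ++ W2)) ?_ (hW1.append (hl.append hW2)) ?_
    · have h1 : 1 ≤ l.length := List.length_pos_iff.2 hne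
      rw [hWW, List.length_append] at hk
      rw [List.length_append, List.length_append]
      omega
    · have e : ((W1 ++ (l ++ W2) : List T) : Multiset T) = (W : Multiset T) + l := by
        rw [hWW, ← Multiset.coe_add, ← Multiset.coe_add, ← Multiset.coe_add, add_assoc,
          add_comm (l : Multiset T)]
      rw [e]
      calc (W : Multiset T) + l ≤ W + (M - W) := by gcongr
        _ = M := add_tsub_cancel_of_le hle

end Pool.Agent.V5helper56.SY
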