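import Mathlib

set_option autoImplicit false

/-!
# The carries of `x + z = 2 y`: transitions and potentials
-/

namespace Pool.Agent.V5helper56.SY

open Finset

/-- the possible differences of the carries of `x + z` and of `2 y` -/
def St : Finset ℤ := {-1, 0, 1}

theorem mem_St {e : ℤ} : e ∈ St ↔ e = -1 ∨ e = 0 ∨ e = 1 := by simp [St]

/-- `((x, y, z), (e, e'))`: three digits and two states -/
abbrev Tr : Type := (ℕ × ℕ × ℕ) × (ℤ × ℤ)

/-- the transitions with digits in `D` -/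
def tr (b : ℕ) (D : Finset ℕ) : Finset Tr :=
  ((D ×ˢ D ×ˢ D) ×ˢ (St ×ˢ St)).filter fun t =>
    (t.1.1 : ℤ) + t.1.2.2 - 2 * t.1.2.1 = b * t.2.2 - t.2.1

theorem mem_tr {b : ℕ} {D : Finset ℕ} {x y z : ℕ} {e e' : ℤ} :
    ((x, y, z), (e, e')) ∈ tr b D ↔ (x ∈ D ∧ y ∈ D ∧ z ∈ D) ∧ (e ∈ St ∧ e' ∈ St) ∧
      (x : ℤ) + z - 2 * y = b * e' - e := by
  unfold tr
  rw [mem_filter, mem_product, mem_product, mem_product, mem_product]
  simp only [and_assoc]

/-- the increment of the potential along a transition -/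
def pv (f : ℕ → ℚ) (h : ℤ → ℚ) (t : Tr) : ℚ :=
  f t.1.1 + f t.1.2.2 - 2 * f t.1.2.1 + h t.2.2 - h t.2.1

variable {b : ℕ} {D : Finset ℕ}

theorem pairs (hD : D ⊆ range b) (hb : b + 2 ≤ 2 * D.card) {y : ℕ} (hy : y ∈ D) {e : ℤ}
    (he : e ∈ St) : ∃ x z : ℕ, ∃ e' : ℤ, z ≠ y ∧ ((x, y, z), (e, e')) ∈ tr b D := by
  have hyb := mem_range.1 (hD hy)
  have hb0 : (0 : ℤ) < b := by omega
  obtain ⟨c, hc⟩ : ∃ c : ℤ, c = 2 * y - e := ⟨_, rfl⟩
  obtain ⟨g, hg⟩ : ∃ g : ℕ → ℕ, ∀ z, g z = ((c - z) % b).toNat := ⟨_, fun _ => rfl⟩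
  have hgz : ∀ z, ((g z : ℕ) : ℤ) = (c - z) % b := by
    intro z
    rw [hg]
    exact Int.toNat_of_nonneg (Int.emod_nonneg _ hb0.ne')
  have hgr : ∀ z, g z < b := by
    intro z
    have h1 := hgz z
    have h2 := Int.emod_lt_of_pos (c - z) hb0
    omega
  have hinj : Set.InjOn g D := by
    intro z hz z' hz' h
    have h1 : ((c - z) % b : ℤ) = (c - z') % b := by rw [← hgz, ← hgz, h]
    have h2 : ((z : ℤ) - z') % b = 0 := by
      have h3 := Int.emod_emod_of_dvd (c - z) (dvd_refl (b : ℤ))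
      have h4 : (b : ℤ) ∣ (c - z') - (c - z) := Int.ModEq.dvd h1
      have h5 : (c - z') - (c - z) = (z : ℤ) - z' := by ring
      rw [h5] at h4
      exact Int.emod_eq_zero_of_dvd h4
    have h3 := mem_range.1 (hD hz)
    have h4 := mem_range.1 (hD hz')
    have h5 : (b : ℤ) ∣ (z : ℤ) - z' := Int.dvd_of_emod_eq_zero h2
    have h6 : (z : ℤ) - z' = 0 := by
      apply Int.eq_zero_of_abs_lt_dvd h5
      rw [abs_lt]
      constructor <;> omega
    omega
  have hcard : 2 ≤ (D.filter fun z => g z ∈ D).card := by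
    have h1 : (D.filter fun z => g z ∈ D).image g = D.image g ∩ D := by
      ext a
      simp only [mem_image, mem_filter, mem_inter]
      constructor
      · rintro ⟨z, ⟨hz, hgz'⟩, rfl⟩
        exact ⟨⟨z, hz, rfl⟩, hgz'⟩
      · rintro ⟨⟨z, hz, rfl⟩, hgz'⟩
        exact ⟨z, ⟨hz, hgz'⟩, rfl⟩
    have h2 : (D.image g ∩ D).card ≤ (D.filter fun z => g z ∈ D).card := by
      rw [← h1]
      exact card_image_le
    have h3 : (D.image g).card = D.card := card_image_of_injOn hinj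
    have h4 := card_union_add_card_inter (D.image g) D
    have h5 : (D.image g ∪ D).card ≤ b := by
      have : D.image g ∪ D ⊆ range b := by
        intro a ha
        rcases mem_union.1 ha with h | h
        · obtain ⟨z, -, rfl⟩ := mem_image.1 h
          exact mem_range.2 (hgr z)
        · exact hD h
      simpa using card_le_card this
    omega
  obtain ⟨z, hz, hzy⟩ := exists_mem_ne (show 1 < _ from hcard) y
  rw [mem_filter] at hz
  have hzb := mem_range.1 (hD hz.1)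
  have hxb := hgr z
  have hdvd : (b : ℤ) ∣ (g z : ℤ) + z - 2 * y + e := by
    rw [hgz]
    have h1 : (c - z) % b + z - 2 * y + e = (c - z) % b - (c - z) := by rw [hc]; ring
    rw [h1]
    refine ⟨-((c - z) / b), ?_⟩
    have h2 := Int.mul_ediv_add_emod (c - z) b
    linarith
  obtain ⟨e', he'⟩ := hdvd
  have heb : -1 ≤ e ∧ e ≤ 1 := by
    rcases mem_St.1 he with h | h | h <;> omega
  refine ⟨g z, z, e', hzy, mem_tr.2 ⟨⟨hz.2, hy, hz.1⟩, ⟨he, ?_⟩, by linarith⟩⟩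
  have h1 : (b : ℤ) * e' < b * 2 := by rw [← he']; omega
  have h2 : (b : ℤ) * (-2) < b * e' := by rw [← he']; omega
  have h3 := lt_of_mul_lt_mul_left h1 hb0.le
  have h4 := lt_of_mul_lt_mul_left h2 hb0.le
  rw [mem_St]
  omega

theorem consecutive (hD : D ⊆ range b) (hb : b + 2 ≤ 2 * D.card) : ∃ u, u ∈ D ∧ u + 1 ∈ D := by
  by_contra hcon
  push Not at hcon
  have h1 : Disjoint D (D.image fun u => u + 1) := by
    rw [disjoint_left]
    intro a ha hb
    obtain ⟨u, hu, rfl⟩ := mem_image.1 hb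
    exact hcon u hu ha
  have h2 := card_union_of_disjoint h1
  have h3 : (D.image fun u => u + 1).card = D.card :=
    card_image_of_injective _ fun x y h => by simpa using h
  have h4 : (D ∪ D.image fun u => u + 1).card ≤ b + 1 := by
    have : (D ∪ D.image fun u => u + 1) ⊆ range (b + 1) := by
      intro a ha
      rcases mem_union.1 ha with h | h
      · have := mem_range.1 (hD h)
        exact mem_range.2 (by omega)
      · obtain ⟨u, hu, rfl⟩ := mem_image.1 h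
        have := mem_range.1 (hD hu)
        exact mem_range.2 (by omega)
    simpa using card_le_card this
  omega

/-- the maximum principle -/
theorem max_principle (hD : D ⊆ range b) (hb : b + 2 ≤ 2 * D.card) (f : ℕ → ℚ) (h : ℤ → ℚ)
    (hf : ∀ t ∈ tr b D, 0 ≤ pv f h t) {s : ℤ} (hs : s ∈ St) :
    ∃ t ∈ tr b D, t.2.1 = s ∧ t.2.2 ≠ s ∧ pv f h t = 0 := by
  have hDne : D.Nonempty := by
    rw [← card_pos]
    omega
  have hbpos : (0 : ℤ) < b := by
    obtain ⟨y, hy⟩ := hDne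
    have := mem_range.1 (hD hy)
    omega
  obtain ⟨y0, hy0, hmax⟩ := exists_max_image D f hDne
  obtain ⟨e0, he0, hmaxe⟩ := exists_max_image St h ⟨0, by simp [St]⟩
  obtain ⟨F, hF⟩ : ∃ F : Finset ℕ, F = D.filter fun y => f y = f y0 := ⟨_, rfl⟩
  have hFm : ∀ y, y ∈ F ↔ y ∈ D ∧ f y = f y0 := by
    intro y
    rw [hF, mem_filter]
  have hFne : F.Nonempty := ⟨y0, (hFm y0).2 ⟨hy0, rfl⟩⟩
  have closed : ∀ x y z e e', ((x, y, z), (e, e')) ∈ tr b D → y ∈ F → h e = h e0 →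
      x ∈ F ∧ z ∈ F ∧ h e' = h e0 ∧ pv f h ((x, y, z), (e, e')) = 0 := by
    intro x y z e e' ht hy he
    obtain ⟨⟨hx, -, hz⟩, ⟨-, he'⟩, -⟩ := mem_tr.1 ht
    have h1 := hf _ ht
    have h2 := hmax x hx
    have h3 := hmax z hz
    have h4 := hmaxe e' he'
    have h5 := ((hFm y).1 hy).2
    have h6 : pv f h ((x, y, z), (e, e')) = f x + f z - 2 * f y + h e' - h e := rfl
    rw [h6] at h1 ⊢
    have h7 : f x = f y0 := by linarith
    have h8 : f z = f y0 := by linarith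
    have h9 : h e' = h e0 := by linarith
    exact ⟨(hFm x).2 ⟨hx, h7⟩, (hFm z).2 ⟨hz, h8⟩, h9, by linarith⟩
  obtain ⟨m, hm⟩ : ∃ m, m = F.min' hFne := ⟨_, rfl⟩
  obtain ⟨M, hM⟩ : ∃ M, M = F.max' hFne := ⟨_, rfl⟩
  have hmF : m ∈ F := by rw [hm]; exact min'_mem _ _
  have hMF : M ∈ F := by rw [hM]; exact max'_mem _ _
  have hmle : ∀ y ∈ F, m ≤ y := fun y hy => by rw [hm]; exact min'_le _ _ hy
  have hMle : ∀ y ∈ F, y ≤ M := fun y hy => by rw [hM]; exact le_max' _ _ hy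
  have hmD := ((hFm m).1 hmF).1
  have hMD := ((hFm M).1 hMF).1
  have s0 : (0 : ℤ) ∈ St := by simp [St]
  have s1 : (1 : ℤ) ∈ St := by simp [St]
  have s2 : (-1 : ℤ) ∈ St := by simp [St]
  -- from the minimum: the right hand side is positive
  have hup : ∀ e ∈ St, h e = h e0 → ∃ t ∈ tr b D, t.2.1 = e ∧ h t.2.2 = h e0 ∧
      pv f h t = 0 ∧ 0 < b * t.2.2 - e := by
    intro e he heh
    obtain ⟨x, z, e', hzy, ht⟩ := pairs hD hb hmD he
    obtain ⟨h1, h2, h3, h4⟩ := closed _ _ _ _ _ ht hmF heh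
    refine ⟨_, ht, rfl, h3, h4, ?_⟩
    have h5 := (mem_tr.1 ht).2.2
    have h6 := hmle x h1
    have h7 := hmle z h2
    show 0 < b * e' - e
    omega
  have hdn : ∀ e ∈ St, h e = h e0 → ∃ t ∈ tr b D, t.2.1 = e ∧ h t.2.2 = h e0 ∧
      pv f h t = 0 ∧ b * t.2.2 - e < 0 := by
    intro e he heh
    obtain ⟨x, z, e', hzy, ht⟩ := pairs hD hb hMD he
    obtain ⟨h1, h2, h3, h4⟩ := closed _ _ _ _ _ ht hMF heh
    refine ⟨_, ht, rfl, h3, h4, ?_⟩
    have h5 := (mem_tr.1 ht).2.2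
    have h6 := hMle x h1
    have h7 := hMle z h2
    show b * e' - e < 0
    omega
  have trSt : ∀ t ∈ tr b D, t.2.2 ∈ St := by
    rintro ⟨⟨x, y, z⟩, e, e'⟩ ht
    exact (mem_tr.1 ht).2.1.2
  -- leaving a state of maximal potential
  have leave1 : h 1 = h e0 → ∃ t ∈ tr b D, t.2.1 = 1 ∧ (t.2.2 = 0 ∨ t.2.2 = -1) ∧
      h t.2.2 = h e0 ∧ pv f h t = 0 := by
    intro h1
    obtain ⟨t, ht, a1, a2, a3, a4⟩ := hdn 1 s1 h1
    refine ⟨t, ht, a1, ?_, a2, a3⟩
    rcases mem_St.1 (trSt t ht) with h | h | h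
    · exact Or.inr h
    · exact Or.inl h
    · rw [h] at a4
      omega
  have leave2 : h (-1) = h e0 → ∃ t ∈ tr b D, t.2.1 = -1 ∧ (t.2.2 = 0 ∨ t.2.2 = 1) ∧
      h t.2.2 = h e0 ∧ pv f h t = 0 := by
    intro h1
    obtain ⟨t, ht, a1, a2, a3, a4⟩ := hup (-1) s2 h1
    refine ⟨t, ht, a1, ?_, a2, a3⟩
    rcases mem_St.1 (trSt t ht) with h | h | h
    · rw [h] at a4
      omega
    · exact Or.inl h
    · exact Or.inr h
  have leave0 : h 0 = h e0 → (∃ t ∈ tr b D, t.2.1 = 0 ∧ t.2.2 = 1 ∧ h t.2.2 = h e0 ∧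
      pv f h t = 0) ∧ ∃ t ∈ tr b D, t.2.1 = 0 ∧ t.2.2 = -1 ∧ h t.2.2 = h e0 ∧ pv f h t = 0 := by
    intro h1
    constructor
    · obtain ⟨t, ht, a1, a2, a3, a4⟩ := hup 0 s0 h1
      refine ⟨t, ht, a1, ?_, a2, a3⟩
      rcases mem_St.1 (trSt t ht) with h | h | h
      · rw [h] at a4
        omega
      · rw [h] at a4
        omega
      · exact h
    · obtain ⟨t, ht, a1, a2, a3, a4⟩ := hdn 0 s0 h1
      refine ⟨t, ht, a1, ?_, a2, a3⟩
      rcases mem_St.1 (trSt t ht) with h | h | h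
      · exact h
      · rw [h] at a4
        omega
      · rw [h] at a4
        omega
  have both : h 1 = h e0 → h (-1) = h e0 → h 0 = h e0 := by
    intro h1 h2
    obtain ⟨u, hu, hu1⟩ := consecutive hD hb
    have t1 : ((u, u + 1, u + 1), ((1 : ℤ), (0 : ℤ))) ∈ tr b D :=
      mem_tr.2 ⟨⟨hu, hu1, hu1⟩, ⟨s1, s0⟩, by push_cast; ring⟩
    have t2 : ((u, u, u + 1), ((-1 : ℤ), (0 : ℤ))) ∈ tr b D :=
      mem_tr.2 ⟨⟨hu, hu, hu1⟩, ⟨s2, s0⟩, by push_cast; ring⟩
    have a1 := hf _ t1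
    have a2 := hf _ t2
    have b1 : pv f h ((u, u + 1, u + 1), ((1 : ℤ), (0 : ℤ))) =
      f u + f (u + 1) - 2 * f (u + 1) + h 0 - h 1 := rfl
    have b2 : pv f h ((u, u, u + 1), ((-1 : ℤ), (0 : ℤ))) =
      f u + f (u + 1) - 2 * f u + h 0 - h (-1) := rfl
    rw [b1] at a1
    rw [b2] at a2
    have a3 := hmaxe 0 s0
    linarith
  have hE0 : h 0 = h e0 := by
    rcases mem_St.1 he0 with h1 | h1 | h1
    · have h2 : h (-1) = h e0 := by rw [h1]
      obtain ⟨t, -, -, ht, h3, -⟩ := leave2 h2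
      rcases ht with ht | ht
      · rwa [ht] at h3
      · rw [ht] at h3
        exact both h3 h2
    · rw [h1]
    · have h2 : h 1 = h e0 := by rw [h1]
      obtain ⟨t, -, -, ht, h3, -⟩ := leave1 h2
      rcases ht with ht | ht
      · rwa [ht] at h3
      · rw [ht] at h3
        exact both h2 h3
  obtain ⟨⟨t1, ht1, a1, a2, a3, a4⟩, ⟨t2, ht2, b1, b2, b3, b4⟩⟩ := leave0 hE0
  rw [a2] at a3
  rw [b2] at b3
  rcases mem_St.1 hs with rfl | rfl | rfl
  · obtain ⟨t, ht, c1, c2, -, c3⟩ := leave2 b3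
    refine ⟨t, ht, c1, ?_, c3⟩
    rcases c2 with c2 | c2 <;> rw [c2] <;> norm_num
  · exact ⟨t1, ht1, a1, by rw [a2]; norm_num, a4⟩
  · obtain ⟨t, ht, c1, c2, -, c3⟩ := leave1 a3
    refine ⟨t, ht, c1, ?_, c3⟩
    rcases c2 with c2 | c2 <;> rw [c2] <;> norm_num

end Pool.Agent.V5helper56.SY
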