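import Pool.Agent.V5helper56.SY.Farkas
import Pool.Agent.V5helper56.SY.Euler
import Pool.Agent.V5helper56.SY.Pot

set_option autoImplicit false

/-!
# Three words with the same letters in arithmetic progression
-/

namespace Pool.Agent.V5helper56.SY

open Finset

variable {b : ℕ} {D : Finset ℕ}

/-- the increment of the potential as a linear functional -/
def pvL (t : Tr) : ((ℕ → ℚ) × (ℤ → ℚ)) →ₗ[ℚ] ℚ where
  toFun x := pv x.1 x.2 t
  map_add' x y := by
    simp only [pv, Prod.fst_add, Prod.snd_add, Pi.add_apply]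
    ring
  map_smul' c x := by
    simp only [pv, Prod.smul_fst, Prod.smul_snd, Pi.smul_apply, smul_eq_mul, RingHom.id_apply]
    ring

theorem pvL_apply (t : Tr) (x : (ℕ → ℚ) × (ℤ → ℚ)) : pvL t x = pv x.1 x.2 t := rfl

/-- a rational circulation leaving `s` -/
theorem circ_rat (hD : D ⊆ range b) (hb : b + 2 ≤ 2 * D.card) {s : ℤ} (hs : s ∈ St) :
    ∃ c : Tr → ℚ, (∀ t ∈ tr b D, 0 ≤ c t) ∧ (∀ f h, ∑ t ∈ tr b D, c t * pv f h t = 0) ∧
      ∃ t ∈ tr b D, t.2.1 = s ∧ t.2.2 ≠ s ∧ 0 < c t := by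
  by_contra hcon
  push Not at hcon
  have key : ∀ t0 ∈ tr b D, t0.2.1 = s → t0.2.2 ≠ s → ∃ x : (ℕ → ℚ) × (ℤ → ℚ),
      (∀ t ∈ tr b D, 0 ≤ pvL t x) ∧ 0 < pvL t0 x := by
    intro t0 ht0 h1 h2
    by_contra hno
    push Not at hno
    let eq := (tr b D).equivFin
    obtain ⟨w, hw, hf⟩ := farkas_lin (tr b D).card
      (fun i => -pvL ((eq.symm i : tr b D) : Tr)) (pvL t0) (by
        intro x hx
        apply hno
        intro t ht
        have := hx (eq ⟨t, ht⟩)
        simpa using this)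
    let w' : Tr → ℚ := fun t => if ht : t ∈ tr b D then w (eq ⟨t, ht⟩) else 0
    have hw' : ∀ t, 0 ≤ w' t := by
      intro t
      simp only [w']
      split_ifs
      · exact hw _
      · exact le_refl _
    have hsum : ∀ x, pvL t0 x = - ∑ t ∈ tr b D, w' t * pvL t x := by
      intro x
      rw [hf x, ← Finset.sum_coe_sort (tr b D) (fun t => w' t * pvL t x),
        ← Finset.sum_neg_distrib, ← Equiv.sum_comp eq.symm]
      refine Finset.sum_congr rfl fun i _ => ?_
      have : w' ((eq.symm i : tr b D) : Tr) = w i := by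
        simp only [w']
        rw [dif_pos (eq.symm i).2]
        simp
      rw [this]
      simp
    have h3 := hcon (fun t => w' t + if t = t0 then 1 else 0)
      (fun t _ => by
        have := hw' t
        split_ifs <;> linarith)
      (fun f h => by
        have h4 := hsum (f, h)
        simp only [pvL_apply] at h4
        simp only [add_mul, Finset.sum_add_distrib, ite_mul, one_mul, zero_mul]
        rw [Finset.sum_ite_eq' (tr b D) t0, if_pos ht0]
        linarith)
      t0 ht0 h1 h2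
    simp only [if_true] at h3
    have := hw' t0
    linarith
  choose! x hx1 hx2 using key
  obtain ⟨L, hL⟩ : ∃ L : Finset Tr, L = (tr b D).filter fun t => t.2.1 = s ∧ t.2.2 ≠ s := ⟨_, rfl⟩
  have hLm : ∀ t, t ∈ L ↔ t ∈ tr b D ∧ t.2.1 = s ∧ t.2.2 ≠ s := by
    intro t
    rw [hL, mem_filter]
  obtain ⟨t, ht, h1, h2, h3⟩ := max_principle hD hb (∑ t ∈ L, x t).1 (∑ t ∈ L, x t).2
    (by
      intro t ht
      rw [← pvL_apply, map_sum]
      exact Finset.sum_nonneg fun u hu => by
        obtain ⟨a1, a2, a3⟩ := (hLm u).1 hu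
        exact hx1 u a1 a2 a3 t ht) hs
  rw [← pvL_apply, map_sum] at h3
  have h4 : 0 < ∑ u ∈ L, pvL t (x u) := by
    refine Finset.sum_pos' (fun u hu => ?_) ⟨t, (hLm t).2 ⟨ht, h1, h2⟩, hx2 t ht h1 h2⟩
    obtain ⟨a1, a2, a3⟩ := (hLm u).1 hu
    exact hx1 u a1 a2 a3 t ht
  linarith

/-- a circulation with nonnegative integers leaving `s` -/
theorem circ_nat (hD : D ⊆ range b) (hb : b + 2 ≤ 2 * D.card) {s : ℤ} (hs : s ∈ St) :
    ∃ c : Tr → ℕ, (∀ f h, ∑ t ∈ tr b D, (c t : ℚ) * pv f h t = 0) ∧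
      ∃ t ∈ tr b D, t.2.1 = s ∧ t.2.2 ≠ s ∧ 0 < c t := by
  obtain ⟨c, h1, h2, t, ht, h3, h4, h5⟩ := circ_rat hD hb hs
  obtain ⟨d, hd⟩ : ∃ d : ℕ, d = ∏ t ∈ tr b D, (c t).den := ⟨_, rfl⟩
  have hdpos : 0 < d := by
    rw [hd]
    exact Finset.prod_pos fun t _ => (c t).den_pos
  have hn : ∀ t ∈ tr b D, ∃ n : ℕ, (n : ℚ) = d * c t := by
    intro t ht
    have h6 : (c t).den ∣ d := by
      rw [hd]
      exact Finset.dvd_prod_of_mem _ ht
    obtain ⟨e, he⟩ := h6
    have h7 : 0 ≤ (c t).num := Rat.num_nonneg.2 (h1 t ht)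
    refine ⟨e * (c t).num.toNat, ?_⟩
    have h8 : (((c t).num.toNat : ℕ) : ℚ) = (c t).num := by
      exact_mod_cast congrArg (Int.cast : ℤ → ℚ) (Int.toNat_of_nonneg h7)
    push_cast
    rw [h8, he]
    push_cast
    have h9 : ((c t).den : ℚ) * c t = (c t).num := by
      rw [mul_comm]
      exact Rat.mul_den_eq_num (c t)
    calc (e : ℚ) * (c t).num = e * (((c t).den : ℚ) * c t) := by rw [h9]
      _ = _ := by ring
  choose! n hn' using hn
  refine ⟨n, fun f h => ?_, t, ht, h3, h4, ?_⟩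
  · have : ∑ t ∈ tr b D, (n t : ℚ) * pv f h t = d * ∑ t ∈ tr b D, c t * pv f h t := by
      rw [Finset.mul_sum]
      refine Finset.sum_congr rfl fun t ht => ?_
      rw [hn' t ht]
      ring
    rw [this, h2, mul_zero]
  · have : (0 : ℚ) < n t := by
      rw [hn' t ht]
      positivity
    exact_mod_cast this

/-- a circulation leaving every state -/
theorem circ_all (hD : D ⊆ range b) (hb : b + 2 ≤ 2 * D.card) :
    ∃ c : Tr → ℕ, (∀ f h, ∑ t ∈ tr b D, (c t : ℚ) * pv f h t = 0) ∧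
      ∀ s ∈ St, ∃ t ∈ tr b D, t.2.1 = s ∧ t.2.2 ≠ s ∧ 0 < c t := by
  have h0 : ∀ s ∈ St, ∃ c : Tr → ℕ, (∀ f h, ∑ t ∈ tr b D, (c t : ℚ) * pv f h t = 0) ∧
      ∃ t ∈ tr b D, t.2.1 = s ∧ t.2.2 ≠ s ∧ 0 < c t := fun s hs => circ_nat hD hb hs
  choose! c hc1 hc2 using h0
  refine ⟨fun t => ∑ s ∈ St, c s t, fun f h => ?_, fun s hs => ?_⟩
  · push_cast
    simp only [Finset.sum_mul]
    rw [Finset.sum_comm]
    exact Finset.sum_eq_zero fun s hs => hc1 s hs f h
  · obtain ⟨t, ht, h1, h2, h3⟩ := hc2 s hs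
    refine ⟨t, ht, h1, h2, lt_of_lt_of_le h3 ?_⟩
    exact Finset.single_le_sum (f := fun s => c s t) (fun _ _ => Nat.zero_le _) hs

/-- the value of a walk -/
theorem walk_val : ∀ {W : List Tr} {e e'' : ℤ}, (∀ t ∈ W, t ∈ tr b D) →
    IsWalk (fun t : Tr => t.2.1) (fun t : Tr => t.2.2) W e e'' →
    ((Nat.ofDigits b (W.map fun t => t.1.1) : ℕ) : ℤ) + Nat.ofDigits b (W.map fun t => t.1.2.2) -
      2 * Nat.ofDigits b (W.map fun t => t.1.2.1) = b ^ W.length * e'' - e := by
  intro W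
  induction W with
  | nil =>
    intro e e'' _ h
    have h' : e = e'' := h
    subst h'
    simp
  | cons t W ih =>
    intro e e'' hW h
    obtain ⟨h1, h2⟩ := h
    have h3 := ih (fun u hu => hW u (List.mem_cons_of_mem _ hu)) h2
    obtain ⟨⟨x, y, z⟩, a, a'⟩ := t
    have h4 := (mem_tr.1 (hW _ List.mem_cons_self)).2.2
    simp only at h1 h3
    subst h1
    simp only [List.map_cons, Nat.ofDigits_cons, List.length_cons, pow_succ, Nat.cast_add,
      Nat.cast_mul]
    linear_combination h4 + (b : ℤ) * h3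

theorem ofDigits_inj_len : ∀ {l l' : List ℕ}, l.length = l'.length → (∀ d ∈ l, d < b) →
    (∀ d ∈ l', d < b) → Nat.ofDigits b l = Nat.ofDigits b l' → l = l' := by
  intro l
  induction l with
  | nil =>
    intro l' h _ _ _
    exact (List.length_eq_zero_iff.1 h.symm).symm
  | cons a l ih =>
    intro l' h h1 h2 h3
    cases l' with
    | nil => simp at h
    | cons a' l' =>
      rw [Nat.ofDigits_cons, Nat.ofDigits_cons] at h3
      have ha := h1 a List.mem_cons_self
      have ha' := h2 a' List.mem_cons_self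
      have h4 : a = a' := by
        have h5 := congrArg (· % b) h3
        simp only [Nat.add_mul_mod_self_left] at h5
        rwa [Nat.mod_eq_of_lt ha, Nat.mod_eq_of_lt ha'] at h5
      subst h4
      have h5 : Nat.ofDigits b l = Nat.ofDigits b l' := by
        have hb : 0 < b := by omega
        have : b * Nat.ofDigits b l = b * Nat.ofDigits b l' := by omega
        exact Nat.eq_of_mul_eq_mul_left hb this
      rw [ih (by simpa using h) (fun d hd => h1 d (List.mem_cons_of_mem _ hd))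
        (fun d hd => h2 d (List.mem_cons_of_mem _ hd)) h5]

/-- Three rearrangements of the same word over `D` in arithmetic progression. -/
theorem gadget (hD : D ⊆ range b) (hb : b + 2 ≤ 2 * D.card) :
    ∃ X Y Z : List ℕ, X.Perm Y ∧ Z.Perm Y ∧ (∀ a ∈ Y, a ∈ D) ∧
      Nat.ofDigits b X + Nat.ofDigits b Z = 2 * Nat.ofDigits b Y ∧
      Nat.ofDigits b X ≠ Nat.ofDigits b Y := by
  obtain ⟨c, hc, hleave⟩ := circ_all hD hb
  obtain ⟨M, hM⟩ : ∃ M : Multiset Tr, M = ∑ t ∈ tr b D, c t • ({t} : Multiset Tr) := ⟨_, rfl⟩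
  have hMmem : ∀ t, t ∈ M ↔ t ∈ tr b D ∧ 0 < c t := by
    intro t
    rw [hM, Multiset.mem_sum]
    constructor
    · rintro ⟨u, hu, h⟩
      rw [Multiset.mem_nsmul] at h
      have h2 := Multiset.mem_singleton.1 h.2
      subst h2
      exact ⟨hu, Nat.pos_of_ne_zero h.1⟩
    · rintro ⟨h1, h2⟩
      exact ⟨t, h1, Multiset.mem_nsmul.2 ⟨h2.ne', Multiset.mem_singleton_self t⟩⟩
  have hMcount : ∀ {α : Type} [DecidableEq α] (g : Tr → α) (a : α),
      (((M.map g).count a : ℕ) : ℚ) = ∑ t ∈ tr b D, (c t : ℚ) * (if g t = a then 1 else 0) := by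
    intro α _ g a
    have h0 : M.map g = ∑ t ∈ tr b D, c t • ({g t} : Multiset α) := by
      rw [hM, ← Multiset.coe_mapAddMonoidHom, map_sum]
      refine Finset.sum_congr rfl fun t _ => ?_
      rw [map_nsmul]
      simp
    rw [h0, Multiset.count_sum']
    push_cast
    refine Finset.sum_congr rfl fun t _ => ?_
    rw [Multiset.count_nsmul, Multiset.count_singleton]
    push_cast
    congr 1
    by_cases h : g t = a
    · rw [if_pos h, if_pos h.symm]
    · rw [if_neg h, if_neg (Ne.symm h)]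
  have hbal : M.map (fun t : Tr => t.2.1) = M.map fun t : Tr => t.2.2 := by
    ext v
    have h1 := hMcount (fun t : Tr => t.2.1) v
    have h2 := hMcount (fun t : Tr => t.2.2) v
    have h3 := hc (fun _ => 0) fun e => if e = v then 1 else 0
    have h4 : (((M.map fun t : Tr => t.2.1).count v : ℕ) : ℚ) =
        (((M.map fun t : Tr => t.2.2).count v : ℕ) : ℚ) := by
      rw [h1, h2]
      have h5 : ∀ t : Tr, pv (fun _ => 0) (fun e => if e = v then (1 : ℚ) else 0) t =
          (if t.2.2 = v then 1 else 0) - (if t.2.1 = v then 1 else 0) := by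
        intro t
        simp only [pv]
        ring
      simp only [h5, mul_sub, Finset.sum_sub_distrib] at h3
      linarith
    exact_mod_cast h4
  have hletter : ∀ u : ℕ, (M.map (fun t : Tr => t.1.1)).count u +
      (M.map (fun t : Tr => t.1.2.2)).count u = 2 * (M.map (fun t : Tr => t.1.2.1)).count u := by
    intro u
    have h1 := hMcount (fun t : Tr => t.1.1) u
    have h2 := hMcount (fun t : Tr => t.1.2.2) u
    have h2' := hMcount (fun t : Tr => t.1.2.1) u
    have h3 := hc (fun a => if a = u then 1 else 0) (fun _ => 0)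
    have h5 : ∀ t : Tr, pv (fun a => if a = u then (1 : ℚ) else 0) (fun _ => 0) t =
        (if t.1.1 = u then 1 else 0) + (if t.1.2.2 = u then 1 else 0) -
          2 * (if t.1.2.1 = u then 1 else 0) := by
      intro t
      simp only [pv]
      ring
    have h6 : ∑ t ∈ tr b D, (c t : ℚ) * ((if t.1.1 = u then 1 else 0) +
        (if t.1.2.2 = u then 1 else 0) - 2 * (if t.1.2.1 = u then 1 else 0)) =
        ∑ t ∈ tr b D, (c t : ℚ) * (if t.1.1 = u then 1 else 0) +
        ∑ t ∈ tr b D, (c t : ℚ) * (if t.1.2.2 = u then 1 else 0) -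
        2 * ∑ t ∈ tr b D, (c t : ℚ) * (if t.1.2.1 = u then 1 else 0) := by
      rw [Finset.mul_sum, ← Finset.sum_add_distrib, ← Finset.sum_sub_distrib]
      refine Finset.sum_congr rfl fun t _ => ?_
      ring
    simp only [h5] at h3
    rw [h6, ← h1, ← h2, ← h2'] at h3
    have h7 : (((M.map (fun t : Tr => t.1.1)).count u + (M.map (fun t : Tr => t.1.2.2)).count u :
        ℕ) : ℚ) = ((2 * (M.map (fun t : Tr => t.1.2.1)).count u : ℕ) : ℚ) := by
      push_cast
      linarith
    exact_mod_cast h7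
  have hsrc : ∀ t ∈ tr b D, t.2.1 ∈ St ∧ t.2.2 ∈ St := by
    rintro ⟨⟨x, y, z⟩, e, e'⟩ ht
    exact (mem_tr.1 ht).2.1
  have hconn : ∀ U : Set ℤ, (0 : ℤ) ∈ U → (∃ t ∈ M, t.2.1 ∉ U) →
      ∃ t ∈ M, (t.2.1 ∈ U ∧ t.2.2 ∉ U) ∨ (t.2.1 ∉ U ∧ t.2.2 ∈ U) := by
    intro U hU h
    obtain ⟨t, ht, htU⟩ := h
    have ht' := (hMmem t).1 ht
    have hs := (hsrc t ht'.1).1
    obtain ⟨s, hs'⟩ : ∃ s, s = t.2.1 := ⟨_, rfl⟩
    rw [← hs'] at hs htU
    have hs0 : s ≠ 0 := fun h => htU (h ▸ hU)
    obtain ⟨t0, ht0, a1, a2, a3⟩ := hleave 0 (by simp [St])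
    obtain ⟨t1, ht1, b1, b2, b3⟩ := hleave s hs
    have a4 := (hsrc t0 ht0).2
    have b4 := (hsrc t1 ht1).2
    by_cases hs1 : -s ∈ U
    · refine ⟨t1, (hMmem t1).2 ⟨ht1, b3⟩, Or.inr ⟨by rwa [b1], ?_⟩⟩
      have : t1.2.2 = 0 ∨ t1.2.2 = -s := by
        rw [mem_St] at hs b4
        omega
      rcases this with h | h <;> rw [h] <;> assumption
    · refine ⟨t0, (hMmem t0).2 ⟨ht0, a3⟩, Or.inl ⟨by rwa [a1], ?_⟩⟩
      have : t0.2.2 = s ∨ t0.2.2 = -s := by
        rw [mem_St] at hs a4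
        omega
      rcases this with h | h <;> rw [h] <;> assumption
  obtain ⟨W, hW, hWM⟩ := euler (src := fun t : Tr => t.2.1) (dst := fun t : Tr => t.2.2)
    hbal (v0 := 0) hconn M.card [] (by simp) rfl (by simp)
  have hWtr : ∀ t ∈ W, t ∈ tr b D := by
    intro t ht
    have : t ∈ M := by
      rw [← hWM]
      exact Multiset.mem_coe.2 ht
    exact ((hMmem t).1 this).1
  have hval := walk_val hWtr hW
  rw [mul_zero, sub_zero] at hval
  obtain ⟨xs, hxs⟩ : ∃ xs, xs = W.map fun t => t.1.1 := ⟨_, rfl⟩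
  obtain ⟨ys, hys⟩ : ∃ ys, ys = W.map fun t => t.1.2.1 := ⟨_, rfl⟩
  obtain ⟨zs, hzs⟩ : ∃ zs, zs = W.map fun t => t.1.2.2 := ⟨_, rfl⟩
  rw [← hxs, ← hys, ← hzs] at hval
  have hlx : xs.length = W.length := by rw [hxs, List.length_map]
  have hly : ys.length = W.length := by rw [hys, List.length_map]
  have hlz : zs.length = W.length := by rw [hzs, List.length_map]
  have hcount : ∀ u, xs.count u + zs.count u = 2 * ys.count u := by
    intro u
    have := hletter u
    rw [← hWM, Multiset.map_coe, Multiset.map_coe, Multiset.map_coe, Multiset.coe_count,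
      Multiset.coe_count, Multiset.coe_count, ← hxs, ← hys, ← hzs] at this
    exact this
  have hval' : Nat.ofDigits b xs + Nat.ofDigits b zs = 2 * Nat.ofDigits b ys := by
    omega
  have hxD : ∀ a ∈ xs, a ∈ D := by
    intro a ha
    rw [hxs] at ha
    obtain ⟨t, ht, rfl⟩ := List.mem_map.1 ha
    obtain ⟨⟨x, y, z⟩, e, e'⟩ := t
    exact (mem_tr.1 (hWtr _ ht)).1.1
  have hyD : ∀ a ∈ ys, a ∈ D := by
    intro a ha
    rw [hys] at ha
    obtain ⟨t, ht, rfl⟩ := List.mem_map.1 ha
    obtain ⟨⟨x, y, z⟩, e, e'⟩ := t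
    exact (mem_tr.1 (hWtr _ ht)).1.2.1
  have hzD : ∀ a ∈ zs, a ∈ D := by
    intro a ha
    rw [hzs] at ha
    obtain ⟨t, ht, rfl⟩ := List.mem_map.1 ha
    obtain ⟨⟨x, y, z⟩, e, e'⟩ := t
    exact (mem_tr.1 (hWtr _ ht)).1.2.2
  refine ⟨xs ++ zs, ys ++ ys, zs ++ xs, ?_, ?_, ?_, ?_, ?_⟩
  · rw [List.perm_iff_count]
    intro u
    rw [List.count_append, List.count_append, hcount u]
    omega
  · rw [List.perm_iff_count]
    intro u
    rw [List.count_append, List.count_append, add_comm, hcount u]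
    omega
  · intro a ha
    rcases List.mem_append.1 ha with h | h <;> exact hyD a h
  · rw [Nat.ofDigits_append, Nat.ofDigits_append, Nat.ofDigits_append, hlx, hly, hlz]
    calc Nat.ofDigits b xs + b ^ W.length * Nat.ofDigits b zs +
          (Nat.ofDigits b zs + b ^ W.length * Nat.ofDigits b xs)
        = (Nat.ofDigits b xs + Nat.ofDigits b zs) * (1 + b ^ W.length) := by ring
      _ = _ := by
          rw [hval']
          ring
  · intro h
    have h1 : xs ++ zs = ys ++ ys := by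
      apply ofDigits_inj_len (b := b) ?_ ?_ ?_ h
      · rw [List.length_append, List.length_append]
        omega
      · intro d hd
        rcases List.mem_append.1 hd with h | h
        · exact mem_range.1 (hD (hxD d h))
        · exact mem_range.1 (hD (hzD d h))
      · intro d hd
        rcases List.mem_append.1 hd with h | h <;> exact mem_range.1 (hD (hyD d h))
    obtain ⟨h2, h3⟩ := List.append_inj h1 (by omega)
    -- a transition leaving the state `0`
    obtain ⟨t, ht, a1, a2, a3⟩ := hleave 0 (by simp [St])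
    have htW : t ∈ W := by
      have : t ∈ M := (hMmem t).2 ⟨ht, a3⟩
      rw [← hWM] at this
      exact Multiset.mem_coe.1 this
    rw [hxs, hys] at h2
    rw [hzs, hys] at h3
    have h4 := List.map_inj_left.1 h2 t htW
    have h5 := List.map_inj_left.1 h3 t htW
    obtain ⟨⟨x, y, z⟩, e, e'⟩ := t
    simp only at a1 a2 h4 h5
    have h6 := (mem_tr.1 ht).2.2
    subst h4 h5 a1
    have h7 : (b : ℤ) * e' = 0 := by linarith
    have h8 : (b : ℤ) ≠ 0 := by
      have := mem_range.1 (hD (mem_tr.1 ht).1.1)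
      omega
    rcases mul_eq_zero.1 h7 with h | h
    · exact h8 h
    · exact a2 h

end Pool.Agent.V5helper56.SY
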