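import Mathlib

set_option autoImplicit false

/-!
# Words, blocks of digits and counting
-/

namespace Pool.Agent.V5helper56.SY

open Finset

/-- the lowest `L` digits of `c` in base `b`, the lowest digit first -/
def dl (b : ℕ) : ℕ → ℕ → List ℕ
  | 0, _ => []
  | L + 1, c => (c % b) :: dl b L (c / b)

variable {b : ℕ}

theorem length_dl : ∀ (L c : ℕ), (dl b L c).length = L := by
  intro L
  induction L with
  | zero => intro c; rfl
  | succ L ih => intro c; simp [dl, ih]

theorem dl_lt (hb : 0 < b) : ∀ (L c : ℕ), ∀ d ∈ dl b L c, d < b := by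
  intro L
  induction L with
  | zero =>
    intro c d hd
    simp [dl] at hd
  | succ L ih =>
    intro c d hd
    rcases List.mem_cons.1 hd with h | h
    · rw [h]
      exact Nat.mod_lt _ hb
    · exact ih _ _ h

theorem ofDigits_dl : ∀ (L c : ℕ), c < b ^ L → Nat.ofDigits b (dl b L c) = c := by
  intro L
  induction L with
  | zero =>
    intro c hc
    rw [pow_zero] at hc
    have : c = 0 := by omega
    rw [this]
    rfl
  | succ L ih =>
    intro c hc
    rw [pow_succ] at hc
    have h1 := ih (c / b) (Nat.div_lt_of_lt_mul (by rwa [mul_comm] at hc))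
    rw [dl, Nat.ofDigits_cons, h1]
    exact Nat.mod_add_div c b

theorem dl_ofDigits : ∀ (L : ℕ) (l : List ℕ), l.length = L → (∀ d ∈ l, d < b) →
    dl b L (Nat.ofDigits b l) = l := by
  intro L
  induction L with
  | zero =>
    intro l hl _
    rw [List.length_eq_zero_iff.1 hl]
    rfl
  | succ L ih =>
    intro l hl hd
    cases l with
    | nil => simp at hl
    | cons a l =>
      have ha := hd a List.mem_cons_self
      have hb : 0 < b := by omega
      rw [Nat.ofDigits_cons, dl, Nat.add_mul_mod_self_left, Nat.mod_eq_of_lt ha,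
        Nat.add_mul_div_left _ _ hb, Nat.div_eq_of_lt ha, zero_add,
        ih l (by simpa using hl) fun d h => hd d (List.mem_cons_of_mem _ h)]

theorem dl_append : ∀ (L M c : ℕ), dl b (L + M) c = dl b L c ++ dl b M (c / b ^ L) := by
  intro L
  induction L with
  | zero => intro M c; simp [dl]
  | succ L ih =>
    intro M c
    rw [show L + 1 + M = (L + M) + 1 by ring, dl, ih, dl, List.cons_append, Nat.div_div_eq_div_mul,
      ← pow_succ']

theorem dl_add_mul (hb : 0 < b) : ∀ (L c e : ℕ), dl b L (c + b ^ L * e) = dl b L c := by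
  intro L
  induction L with
  | zero => intro c e; rfl
  | succ L ih =>
    intro c e
    have h1 : c + b ^ (L + 1) * e = c + b * (b ^ L * e) := by rw [pow_succ']; ring
    rw [dl, dl, h1, Nat.add_mul_mod_self_left, Nat.add_mul_div_left _ _ hb, ih]

theorem ofDigits_lt : ∀ (l : List ℕ), (∀ d ∈ l, d < b) → Nat.ofDigits b l < b ^ l.length := by
  intro l
  induction l with
  | nil => intro _; simp
  | cons a l ih =>
    intro h
    have h1 := h a List.mem_cons_self
    have h2 := ih fun d hd => h d (List.mem_cons_of_mem _ hd)
    rw [Nat.ofDigits_cons, List.length_cons, pow_succ']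
    calc a + b * Nat.ofDigits b l < b + b * Nat.ofDigits b l := by omega
      _ = b * (Nat.ofDigits b l + 1) := by ring
      _ ≤ b * b ^ l.length := Nat.mul_le_mul_left _ h2

/-- the words of length `L` with letters below `b` -/
def words (b : ℕ) : ℕ → Finset (List ℕ)
  | 0 => {[]}
  | L + 1 => (range b ×ˢ words b L).image fun p => p.1 :: p.2

theorem mem_words : ∀ {L : ℕ} {l : List ℕ}, l ∈ words b L ↔ l.length = L ∧ ∀ d ∈ l, d < b := by
  intro L
  induction L with
  | zero =>
    intro l
    rw [words, mem_singleton]
    constructor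
    · rintro rfl
      simp
    · rintro ⟨h, -⟩
      exact List.length_eq_zero_iff.1 h
  | succ L ih =>
    intro l
    rw [words, mem_image]
    constructor
    · rintro ⟨⟨a, w⟩, h, rfl⟩
      obtain ⟨h1, h2⟩ := mem_product.1 h
      obtain ⟨h3, h4⟩ := ih.1 h2
      refine ⟨by simp [h3], ?_⟩
      intro d hd
      rcases List.mem_cons.1 hd with h | h
      · rw [h]
        exact mem_range.1 h1
      · exact h4 d h
    · rintro ⟨h1, h2⟩
      cases l with
      | nil => simp at h1
      | cons a w =>
        exact ⟨(a, w), mem_product.2 ⟨mem_range.2 (h2 a List.mem_cons_self), ih.2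
          ⟨by simpa using h1, fun d hd => h2 d (List.mem_cons_of_mem _ hd)⟩⟩, rfl⟩

theorem card_words : ∀ L : ℕ, (words b L).card = b ^ L := by
  intro L
  induction L with
  | zero => simp [words]
  | succ L ih =>
    rw [words, card_image_of_injective, card_product, card_range, ih, pow_succ, mul_comm]
    rintro ⟨a, w⟩ ⟨a', w'⟩ h
    simp only [List.cons.injEq] at h
    rw [h.1, h.2]

/-- few letters outside `F` -/
theorem card_few {F : Finset ℕ} {k : ℕ} (hF : F.card ≤ k) (hk : 0 < k) (hb : 0 < b) :
    ∀ L T : ℕ, ((words b L).filter fun l => l.countP (fun d => d ∉ F) ≤ T).card ≤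
      (b * (L + 1)) ^ T * k ^ L := by
  intro L
  induction L with
  | zero =>
    intro T
    calc _ ≤ (words b 0).card := card_filter_le _ _
      _ = 1 := by simp [words]
      _ ≤ _ := Nat.one_le_iff_ne_zero.2 (by positivity)
  | succ L ih =>
    intro T
    have hsub : ((words b (L + 1)).filter fun l => l.countP (fun d => d ∉ F) ≤ T) ⊆
        ((F ×ˢ (words b L).filter fun l => l.countP (fun d => d ∉ F) ≤ T).image
          fun p => p.1 :: p.2) ∪
        ((range b ×ˢ (words b L).filter fun l => l.countP (fun d => d ∉ F) + 1 ≤ T).image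
          fun p => p.1 :: p.2) := by
      intro l hl
      obtain ⟨h1, h2⟩ := mem_filter.1 hl
      obtain ⟨h3, h4⟩ := mem_words.1 h1
      cases l with
      | nil => simp at h3
      | cons a w =>
        have hw : w ∈ words b L := mem_words.2
          ⟨by simpa using h3, fun d hd => h4 d (List.mem_cons_of_mem _ hd)⟩
        have ha := h4 a List.mem_cons_self
        by_cases haF : a ∈ F
        · refine mem_union_left _ (mem_image.2 ⟨(a, w), mem_product.2 ⟨haF, mem_filter.2 ⟨hw, ?_⟩⟩,
            rfl⟩)
          rwa [List.countP_cons_of_neg (by simpa using haF)] at h2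
        · refine mem_union_right _ (mem_image.2 ⟨(a, w), mem_product.2 ⟨mem_range.2 ha,
            mem_filter.2 ⟨hw, ?_⟩⟩, rfl⟩)
          rwa [List.countP_cons_of_pos (by simpa using haF)] at h2
    have h1 := card_le_card hsub
    have h2 := card_union_le
      ((F ×ˢ (words b L).filter fun l => l.countP (fun d => d ∉ F) ≤ T).image fun p => p.1 :: p.2)
      ((range b ×ˢ (words b L).filter fun l => l.countP (fun d => d ∉ F) + 1 ≤ T).image
          fun p => p.1 :: p.2)
    have h3 : ((F ×ˢ (words b L).filter fun l => l.countP (fun d => d ∉ F) ≤ T).image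
        fun p => p.1 :: p.2).card ≤ k * ((b * (L + 1)) ^ T * k ^ L) := by
      refine card_image_le.trans ?_
      rw [card_product]
      exact Nat.mul_le_mul hF (ih T)
    have h4 : ((range b ×ˢ (words b L).filter fun l => l.countP (fun d => d ∉ F) + 1 ≤ T).image
        fun p => p.1 :: p.2).card ≤ if T = 0 then 0 else b * ((b * (L + 1)) ^ (T - 1) * k ^ L) := by
      refine card_image_le.trans ?_
      rw [card_product, card_range]
      split_ifs with hT
      · subst hT
        rw [filter_false_of_mem (fun l _ => by omega)]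
        simp
      · refine Nat.mul_le_mul_left _ ?_
        have := ih (T - 1)
        refine le_trans (card_le_card fun l hl => ?_) this
        rw [mem_filter] at hl ⊢
        exact ⟨hl.1, by omega⟩
    refine (h1.trans h2).trans ((Nat.add_le_add h3 h4).trans ?_)
    split_ifs with hT
    · subst hT
      rw [pow_zero, pow_zero, one_mul, one_mul, add_zero, pow_succ']
    · obtain ⟨S, rfl⟩ : ∃ S, T = S + 1 := ⟨T - 1, by omega⟩
      rw [Nat.add_sub_cancel]
      have h5 : (b * (L + 1)) ^ (S + 1) + b * (b * (L + 1)) ^ S ≤ (b * (L + 1 + 1)) ^ (S + 1) := by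
        rw [pow_succ, pow_succ]
        calc (b * (L + 1)) ^ S * (b * (L + 1)) + b * (b * (L + 1)) ^ S
            = (b * (L + 1)) ^ S * (b * (L + 1 + 1)) := by ring
          _ ≤ _ := by gcongr <;> omega
      calc k * ((b * (L + 1)) ^ (S + 1) * k ^ L) + b * ((b * (L + 1)) ^ S * k ^ L)
          ≤ k * ((b * (L + 1)) ^ (S + 1) * k ^ L) + k * (b * ((b * (L + 1)) ^ S * k ^ L)) := by
            exact Nat.add_le_add_left (Nat.le_mul_of_pos_left _ hk) _
        _ = ((b * (L + 1)) ^ (S + 1) + b * (b * (L + 1)) ^ S) * k ^ (L + 1) := by ring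
        _ ≤ _ := by gcongr

/-- at most `k` letters are frequent -/
def Good (b k m : ℕ) (l : List ℕ) : Prop := ((range b).filter fun d => m ≤ l.count d).card ≤ k

instance (b k m : ℕ) (l : List ℕ) : Decidable (Good b k m l) := by
  unfold Good
  infer_instance

theorem card_good {k : ℕ} (hk : 0 < k) (hb : 0 < b) (m L : ℕ) :
    ((words b L).filter fun l => Good b k m l).card ≤ 2 ^ b * ((b * (L + 1)) ^ (b * m) * k ^ L) := by
  have hsub : ((words b L).filter fun l => Good b k m l) ⊆
      ((range b).powerset.filter fun F => F.card ≤ k).biUnion fun F =>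
        (words b L).filter fun l => l.countP (fun d => d ∉ F) ≤ b * m := by
    intro l hl
    obtain ⟨h1, h2⟩ := mem_filter.1 hl
    obtain ⟨h3, h4⟩ := mem_words.1 h1
    rw [mem_biUnion]
    refine ⟨(range b).filter fun d => m ≤ l.count d, mem_filter.2
      ⟨mem_powerset.2 (filter_subset _ _), h2⟩, mem_filter.2 ⟨h1, ?_⟩⟩
    have h5 : l.countP (fun d => d ∉ (range b).filter fun d => m ≤ l.count d) =
        ∑ d ∈ (range b).filter (fun d => ¬ m ≤ l.count d), l.count d := by
      have h6 : ∀ (F : Finset ℕ) (w : List ℕ), (∀ d ∈ w, d < b) →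
          w.countP (fun d => d ∉ F) = ∑ d ∈ range b \ F, w.count d := by
        intro F w
        induction w with
        | nil => intro _; simp
        | cons a w ih =>
          intro h
          have ha := h a List.mem_cons_self
          have ih' := ih fun d hd => h d (List.mem_cons_of_mem _ hd)
          have h7 : ∑ d ∈ range b \ F, (a :: w).count d =
              ∑ d ∈ range b \ F, w.count d + ∑ d ∈ range b \ F, (if a = d then 1 else 0) := by
            rw [← Finset.sum_add_distrib]
            refine Finset.sum_congr rfl fun d _ => ?_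
            rw [List.count_cons]
            simp
          rw [h7, Finset.sum_ite_eq]
          by_cases haF : a ∈ F
          · rw [List.countP_cons_of_neg (by simpa using haF), ih', if_neg (by simp [haF])]
            simp
          · rw [List.countP_cons_of_pos (by simpa using haF), ih', if_pos (by simp [haF, ha])]
      rw [h6 _ l h4]
      refine Finset.sum_congr ?_ fun _ _ => rfl
      ext d
      simp only [mem_sdiff, mem_filter, not_and]
      constructor
      · rintro ⟨h8, h9⟩
        exact ⟨h8, h9 h8⟩
      · rintro ⟨h8, h9⟩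
        exact ⟨h8, fun _ => h9⟩
    rw [h5]
    calc ∑ d ∈ (range b).filter (fun d => ¬ m ≤ l.count d), l.count d
        ≤ ∑ d ∈ (range b).filter (fun d => ¬ m ≤ l.count d), m :=
          Finset.sum_le_sum fun d hd => by
            have := (mem_filter.1 hd).2
            omega
      _ = ((range b).filter (fun d => ¬ m ≤ l.count d)).card * m := by
          rw [Finset.sum_const, smul_eq_mul]
      _ ≤ b * m := by
          gcongr
          simpa using card_filter_le (range b) (fun d => ¬ m ≤ l.count d)
  refine (card_le_card hsub).trans (card_biUnion_le.trans ?_)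
  calc _ ≤ ∑ F ∈ (range b).powerset.filter (fun F => F.card ≤ k),
        ((b * (L + 1)) ^ (b * m) * k ^ L) :=
        Finset.sum_le_sum fun F hF => card_few (mem_filter.1 hF).2 hk hb L (b * m)
    _ = ((range b).powerset.filter (fun F => F.card ≤ k)).card *
        ((b * (L + 1)) ^ (b * m) * k ^ L) := by rw [Finset.sum_const, smul_eq_mul]
    _ ≤ _ := by
        gcongr
        calc _ ≤ (range b).powerset.card := card_filter_le _ _
          _ = 2 ^ b := by rw [card_powerset, card_range]

/-- the numbers all of whose `q` blocks of `L` digits satisfy `P` -/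
theorem card_blocks (hb : 0 < b) (L : ℕ) (P : List ℕ → Prop) [DecidablePred P] : ∀ q : ℕ,
    ((range (b ^ (q * L))).filter fun a => ∀ j < q, P (dl b L (a / b ^ (j * L)))).card =
      ((words b L).filter P).card ^ q := by
  intro q
  induction q with
  | zero =>
    rw [Nat.zero_mul, pow_zero, pow_zero, filter_true_of_mem (fun a _ j hj => by omega)]
    simp
  | succ q ih =>
    rw [pow_succ', ← ih, ← card_product]
    symm
    refine card_bij (fun p _ => Nat.ofDigits b p.1 + b ^ L * p.2) ?_ ?_ ?_
    · rintro ⟨w, a⟩ hp
      obtain ⟨h1, h2⟩ := mem_product.1 hp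
      obtain ⟨h3, h4⟩ := mem_filter.1 h1
      obtain ⟨h5, h6⟩ := mem_filter.1 h2
      obtain ⟨h7, h8⟩ := mem_words.1 h3
      have h9 := ofDigits_lt w h8
      rw [h7] at h9
      have h10 := mem_range.1 h5
      rw [mem_filter, mem_range]
      refine ⟨?_, fun j hj => ?_⟩
      · rw [show (q + 1) * L = L + q * L by ring, pow_add]
        calc Nat.ofDigits b w + b ^ L * a < b ^ L + b ^ L * a := by simpa using h9
          _ = b ^ L * (a + 1) := by ring
          _ ≤ _ := Nat.mul_le_mul_left _ h10
      · cases j with
        | zero =>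
          rw [Nat.zero_mul, pow_zero, Nat.div_one, dl_add_mul hb, dl_ofDigits L w h7 h8]
          exact h4
        | succ j =>
          have h11 := h6 j (by omega)
          rw [show (j + 1) * L = L + j * L by ring, pow_add, ← Nat.div_div_eq_div_mul,
            Nat.add_mul_div_left _ _ (by positivity), Nat.div_eq_of_lt h9, zero_add]
          exact h11
    · rintro ⟨w, a⟩ hp ⟨w', a'⟩ hp' h
      obtain ⟨h1, -⟩ := mem_product.1 hp
      obtain ⟨h1', -⟩ := mem_product.1 hp'
      obtain ⟨h7, h8⟩ := mem_words.1 (mem_filter.1 h1).1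
      obtain ⟨h7', h8'⟩ := mem_words.1 (mem_filter.1 h1').1
      simp only at h
      have h9 := ofDigits_lt w h8
      have h9' := ofDigits_lt w' h8'
      simp only at h7 h7'
      rw [h7] at h9
      rw [h7'] at h9'
      have h10 : w = w' := by
        have := congrArg (dl b L) h
        rwa [dl_add_mul hb, dl_add_mul hb, dl_ofDigits L w h7 h8, dl_ofDigits L w' h7' h8'] at this
      have h11 : a = a' := by
        have := congrArg (· / b ^ L) h
        rwa [Nat.add_mul_div_left _ _ (by positivity), Nat.add_mul_div_left _ _ (by positivity),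
          Nat.div_eq_of_lt h9, Nat.div_eq_of_lt h9', zero_add, zero_add] at this
      rw [h10, h11]
    · intro a ha
      obtain ⟨h1, h2⟩ := mem_filter.1 ha
      have h3 := mem_range.1 h1
      refine ⟨(dl b L a, a / b ^ L), mem_product.2 ⟨mem_filter.2 ⟨mem_words.2
        ⟨length_dl _ _, dl_lt hb _ _⟩, ?_⟩, mem_filter.2 ⟨mem_range.2 ?_, ?_⟩⟩, ?_⟩
      · have := h2 0 (by omega)
        rwa [Nat.zero_mul, pow_zero, Nat.div_one] at this
      · rw [show (q + 1) * L = L + q * L by ring, pow_add] at h3
        exact Nat.div_lt_of_lt_mul h3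
      · intro j hj
        have := h2 (j + 1) (by omega)
        rwa [show (j + 1) * L = L + j * L by ring, pow_add, ← Nat.div_div_eq_div_mul] at this
      · simp only
        have h4 : dl b L a = dl b L (a % b ^ L) := by
          conv_lhs => rw [← Nat.mod_add_div a (b ^ L)]
          exact dl_add_mul hb _ _ _
        rw [h4, ofDigits_dl L _ (Nat.mod_lt _ (by positivity))]
        exact Nat.mod_add_div a (b ^ L)

end Pool.Agent.V5helper56.SY
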