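import Pool.Agent.V5helper56.SY.Gadget
import Pool.Agent.V5helper56.SY.Words

set_option autoImplicit false

/-!
# Permuting the digits inside blocks
-/

namespace Pool.Agent.V5helper56.SY

open Finset

variable {b : ℕ}

/-- one length for all gadgets -/
theorem gadgets (b : ℕ) : ∃ m : ℕ, ∀ D ⊆ range b, b + 2 ≤ 2 * D.card →
    ∃ X Y Z : List ℕ, X.Perm Y ∧ Z.Perm Y ∧ (∀ a ∈ Y, a ∈ D) ∧ Y.length ≤ m ∧
      Nat.ofDigits b X + Nat.ofDigits b Z = 2 * Nat.ofDigits b Y ∧
      Nat.ofDigits b X ≠ Nat.ofDigits b Y := by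
  have h : ∀ D : Finset ℕ, D ⊆ range b → b + 2 ≤ 2 * D.card →
      ∃ X Y Z : List ℕ, X.Perm Y ∧ Z.Perm Y ∧ (∀ a ∈ Y, a ∈ D) ∧
      Nat.ofDigits b X + Nat.ofDigits b Z = 2 * Nat.ofDigits b Y ∧
      Nat.ofDigits b X ≠ Nat.ofDigits b Y := fun D h1 h2 => gadget h1 h2
  choose! X Y Z h1 h2 h3 h4 h5 using h
  refine ⟨∑ D ∈ (range b).powerset, (Y D).length, fun D hD hc => ⟨X D, Y D, Z D, h1 D hD hc,
    h2 D hD hc, h3 D hD hc, ?_, h4 D hD hc, h5 D hD hc⟩⟩
  exact Finset.single_le_sum (f := fun D => (Y D).length) (fun _ _ => Nat.zero_le _)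
    (mem_powerset.2 hD)

/-- splitting off a block -/
theorem split_block {q L j a : ℕ} (hj : j < q) (ha : a < b ^ (q * L)) :
    ∃ u v : List ℕ, u.length = j * L ∧ u.length + L + v.length = q * L ∧
      (0 < b → ∀ d ∈ u ++ dl b L (a / b ^ (j * L)) ++ v, d < b) ∧
      Nat.ofDigits b (u ++ dl b L (a / b ^ (j * L)) ++ v) = a := by
  obtain ⟨r, rfl⟩ : ∃ r, q = j + 1 + r := ⟨q - (j + 1), by omega⟩
  have h1 : dl b ((j + 1 + r) * L) a = dl b (j * L) a ++ dl b L (a / b ^ (j * L)) ++
      dl b (r * L) (a / b ^ (j * L) / b ^ L) := by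
    rw [show (j + 1 + r) * L = j * L + (L + r * L) by ring, dl_append, dl_append,
      List.append_assoc]
  refine ⟨dl b (j * L) a, dl b (r * L) (a / b ^ (j * L) / b ^ L), length_dl _ _, ?_, ?_, ?_⟩
  · rw [length_dl, length_dl]
    ring
  · intro hb d hd
    rw [← h1] at hd
    exact dl_lt hb _ _ d hd
  · rw [← h1, ofDigits_dl _ _ ha]

/-- every block of an element of a symmetric progression-free set is good -/
theorem block_good (hb : 2 ≤ b) {m : ℕ} (hm : ∀ D ⊆ range b, b + 2 ≤ 2 * D.card →
    ∃ X Y Z : List ℕ, X.Perm Y ∧ Z.Perm Y ∧ (∀ a ∈ Y, a ∈ D) ∧ Y.length ≤ m ∧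
      Nat.ofDigits b X + Nat.ofDigits b Z = 2 * Nat.ofDigits b Y ∧
      Nat.ofDigits b X ≠ Nat.ofDigits b Y) {q L : ℕ} {A : Finset ℕ}
    (hA : A ⊆ range (b ^ (q * L)))
    (hS : ∀ (j : ℕ) (u w w' v : List ℕ), j < q → u.length = j * L → w.length = L →
      u.length + w.length + v.length = q * L → (∀ d ∈ u ++ w ++ v, d < b) → w.Perm w' →
      Nat.ofDigits b (u ++ w ++ v) ∈ A → Nat.ofDigits b (u ++ w' ++ v) ∈ A)
    (hF : ThreeAPFree (A : Set ℕ)) {a : ℕ} (ha : a ∈ A) {j : ℕ} (hj : j < q) :
    Good b ((b + 1) / 2) m (dl b L (a / b ^ (j * L))) := by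
  by_contra hcon
  unfold Good at hcon
  obtain ⟨w, hw⟩ : ∃ w, w = dl b L (a / b ^ (j * L)) := ⟨_, rfl⟩
  rw [← hw] at hcon
  obtain ⟨X, Y, Z, h1, h2, h3, h4, h5, h6⟩ := hm ((range b).filter fun d => m ≤ w.count d)
    (filter_subset _ _) (by omega)
  obtain ⟨u, v, g1, g2, g3, g4⟩ := split_block hj (mem_range.1 (hA ha))
  rw [← hw] at g3 g4
  have hwl : w.length = L := by rw [hw, length_dl]
  have hYw : (Y ++ w.diff Y).Perm w := by
    apply List.subperm_append_diff_self_of_count_le
    intro x hx
    have h7 := (mem_filter.1 (h3 x hx)).2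
    exact (List.count_le_length).trans (h4.trans h7)
  obtain ⟨r, hr⟩ : ∃ r, r = w.diff Y := ⟨_, rfl⟩
  rw [← hr] at hYw
  have hin : ∀ X' : List ℕ, X'.Perm Y → Nat.ofDigits b (u ++ (X' ++ r) ++ v) ∈ A := by
    intro X' hX'
    refine hS j u w (X' ++ r) v hj g1 hwl (by rw [hwl]; exact g2) (g3 (by omega))
      (((hX'.append_right r).trans hYw).symm) ?_
    rw [g4]
    exact ha
  have hX := hin X h1
  have hY := hin Y (List.Perm.refl _)
  have hZ := hin Z h2
  have lX := h1.length_eq
  have lZ := h2.length_eq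
  have hval : ∀ X' : List ℕ, X'.length = Y.length → Nat.ofDigits b (u ++ (X' ++ r) ++ v) =
      Nat.ofDigits b u + b ^ u.length * (Nat.ofDigits b X' + b ^ Y.length *
        Nat.ofDigits b (r ++ v)) := by
    intro X' hX'
    rw [List.append_assoc, List.append_assoc, Nat.ofDigits_append, Nat.ofDigits_append, hX']
  have hne := hF hX hY hZ (by
    rw [hval X lX, hval Y rfl, hval Z lZ]
    have : b ^ u.length * Nat.ofDigits b X + b ^ u.length * Nat.ofDigits b Z =
        2 * (b ^ u.length * Nat.ofDigits b Y) := by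
      rw [← mul_add, h5]
      ring
    linarith)
  rw [hval X lX, hval Y rfl] at hne
  apply h6
  have h7 : b ^ u.length * (Nat.ofDigits b X + b ^ Y.length * Nat.ofDigits b (r ++ v)) =
      b ^ u.length * (Nat.ofDigits b Y + b ^ Y.length * Nat.ofDigits b (r ++ v)) := by omega
  have h8 := Nat.eq_of_mul_eq_mul_left (by positivity) h7
  omega

/-- a block of digits -/
theorem dl_block (hb : 2 ≤ b) {l : List ℕ} (hl : ∀ d ∈ l, d < b) {s L : ℕ}
    (hs : s + L ≤ l.length) : dl b L (Nat.ofDigits b l / b ^ s) = (l.drop s).take L := by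
  have h1 : Nat.ofDigits b l / b ^ s = Nat.ofDigits b (l.drop s) := by
    conv_lhs => rw [← List.take_append_drop s l, Nat.ofDigits_append]
    have h2 : (l.take s).length = s := by
      rw [List.length_take]
      omega
    have h3 := ofDigits_lt (b := b) (l.take s) fun d hd => hl d (List.mem_of_mem_take hd)
    rw [h2] at h3 ⊢
    rw [Nat.add_mul_div_left _ _ (by positivity), Nat.div_eq_of_lt h3, zero_add]
  have h4 : Nat.ofDigits b (l.drop s) = Nat.ofDigits b ((l.drop s).take L) + b ^ L *
      Nat.ofDigits b ((l.drop s).drop L) := by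
    conv_lhs => rw [← List.take_append_drop L (l.drop s), Nat.ofDigits_append]
    have h2 : ((l.drop s).take L).length = L := by
      rw [List.length_take, List.length_drop]
      omega
    rw [h2]
  rw [h1, h4, dl_add_mul (by omega), dl_ofDigits]
  · rw [List.length_take, List.length_drop]
    omega
  · intro d hd
    exact hl d (List.mem_of_mem_drop (List.mem_of_mem_take hd))

/-- the whole word of a number with prescribed blocks -/
theorem blocks_perm {L a : ℕ} {w0 : List ℕ} : ∀ {q : ℕ},
    (∀ j < q, (dl b L (a / b ^ (j * L))).Perm w0) →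
    (dl b (q * L) a).Perm (List.replicate q w0).flatten := by
  intro q
  induction q with
  | zero =>
    intro _
    simp [dl]
  | succ q ih =>
    intro h
    rw [show (q + 1) * L = q * L + L by ring, dl_append, List.replicate_succ, List.flatten_cons]
    exact ((ih fun j hj => h j (by omega)).append (h q (by omega))).trans List.perm_append_comm

/-- without carries the sum of the squares of the digits is convex -/
theorem nocarry {k : ℕ} (hk : 2 * k ≤ b + 1) : ∀ {X Y Z : List ℕ}, X.length = Y.length →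
    Z.length = Y.length → (∀ d ∈ X, d < k) → (∀ d ∈ Y, d < k) → (∀ d ∈ Z, d < k) →
    Nat.ofDigits b X + Nat.ofDigits b Z = 2 * Nat.ofDigits b Y →
    2 * (Y.map (· ^ 2)).sum ≤ (X.map (· ^ 2)).sum + (Z.map (· ^ 2)).sum ∧
      ((X.map (· ^ 2)).sum + (Z.map (· ^ 2)).sum ≤ 2 * (Y.map (· ^ 2)).sum → X = Y) := by
  intro X
  induction X with
  | nil =>
    intro Y Z h1 h2 _ _ _ _
    have hY : Y = [] := List.length_eq_zero_iff.1 h1.symm
    subst hY
    have hZ : Z = [] := List.length_eq_zero_iff.1 h2
    subst hZ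
    simp
  | cons x X ih =>
    intro Y Z h1 h2 h3 h4 h5 h6
    cases Y with
    | nil => simp at h1
    | cons y Y =>
      cases Z with
      | nil => simp at h2
      | cons z Z =>
        have hx := h3 x List.mem_cons_self
        have hy := h4 y List.mem_cons_self
        have hz := h5 z List.mem_cons_self
        rw [Nat.ofDigits_cons, Nat.ofDigits_cons, Nat.ofDigits_cons] at h6
        have h7 : x + z = 2 * y := by
          have h8 : (x + z) % b = (2 * y) % b := by
            have h9 := congrArg (· % b) h6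
            rwa [show x + b * Nat.ofDigits b X + (z + b * Nat.ofDigits b Z) =
              (x + z) + b * (Nat.ofDigits b X + Nat.ofDigits b Z) by ring,
              show 2 * (y + b * Nat.ofDigits b Y) = 2 * y + b * (2 * Nat.ofDigits b Y) by ring,
              Nat.add_mul_mod_self_left, Nat.add_mul_mod_self_left] at h9
          rwa [Nat.mod_eq_of_lt (by omega), Nat.mod_eq_of_lt (by omega)] at h8
        have hb : 0 < b := by omega
        have h8 : Nat.ofDigits b X + Nat.ofDigits b Z = 2 * Nat.ofDigits b Y := by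
          apply Nat.eq_of_mul_eq_mul_left hb
          linarith
        obtain ⟨h9, h10⟩ := ih (Y := Y) (Z := Z) (by simpa using h1) (by simpa using h2)
          (fun d hd => h3 d (List.mem_cons_of_mem _ hd))
          (fun d hd => h4 d (List.mem_cons_of_mem _ hd))
          (fun d hd => h5 d (List.mem_cons_of_mem _ hd)) h8
        have h11 : 2 * y ^ 2 ≤ x ^ 2 + z ^ 2 := by
          zify at h7 ⊢
          nlinarith [sq_nonneg ((x : ℤ) - z)]
        simp only [List.map_cons, List.sum_cons]
        refine ⟨by omega, fun h12 => ?_⟩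
        have h13 : x ^ 2 + z ^ 2 ≤ 2 * y ^ 2 := by omega
        have h14 := h10 (by omega)
        have h15 : x = y := by
          zify at h7 h13 ⊢
          have h16 : ((x : ℤ) - y) ^ 2 ≤ 0 := by
            have : (z : ℤ) = 2 * y - x := by linarith
            rw [this] at h13
            nlinarith
          have h17 : (x : ℤ) - y = 0 := by
            have := le_antisymm h16 (sq_nonneg _)
            exact pow_eq_zero_iff (two_ne_zero) |>.1 this
          linarith
        rw [h14, h15]

/-- a popular type -/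
theorem popular {k : ℕ} (hk : 0 < k) (L : ℕ) : ∃ w0 ∈ words k L,
    k ^ L ≤ (L + 1) ^ k * ((words k L).filter fun w => w.Perm w0).card := by
  by_contra hcon
  push Not at hcon
  obtain ⟨f, hf⟩ : ∃ f : List ℕ → (Fin k → ℕ), ∀ w i, f w i = w.count (i : ℕ) :=
    ⟨fun w i => w.count (i : ℕ), fun _ _ => rfl⟩
  have hmaps : ∀ w ∈ words k L, f w ∈ Fintype.piFinset fun _ : Fin k => range (L + 1) := by
    intro w hw
    rw [Fintype.mem_piFinset]
    intro i
    rw [mem_range, hf]
    have := List.count_le_length (a := (i : ℕ)) (l := w)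
    have := (mem_words.1 hw).1
    omega
  have h1 := card_eq_sum_card_fiberwise (f := f) (s := words k L)
    (t := Fintype.piFinset fun _ : Fin k => range (L + 1)) hmaps
  have hcard : (Fintype.piFinset fun _ : Fin k => range (L + 1)).card = (L + 1) ^ k := by
    rw [Fintype.card_piFinset]
    simp
  have h2 : ∀ y ∈ Fintype.piFinset (fun _ : Fin k => range (L + 1)),
      (L + 1) ^ k * ((words k L).filter fun w => f w = y).card < k ^ L := by
    intro y _
    rcases ((words k L).filter fun w => f w = y).eq_empty_or_nonempty with h | ⟨w0, hw0⟩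
    · rw [h, card_empty, mul_zero]
      positivity
    · obtain ⟨h3, h4⟩ := mem_filter.1 hw0
      refine lt_of_le_of_lt (Nat.mul_le_mul_left _ (card_le_card ?_)) (hcon w0 h3)
      intro w hw
      obtain ⟨h5, h6⟩ := mem_filter.1 hw
      refine mem_filter.2 ⟨h5, ?_⟩
      rw [List.perm_iff_count]
      intro c
      by_cases hc : c < k
      · have h7 := congrFun (h6.trans h4.symm) ⟨c, hc⟩
        rwa [hf, hf] at h7
      · rw [List.count_eq_zero.2 fun h => hc ((mem_words.1 h5).2 c h),
          List.count_eq_zero.2 fun h => hc ((mem_words.1 h3).2 c h)]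
  have h3 : ∑ y ∈ Fintype.piFinset (fun _ : Fin k => range (L + 1)),
      (L + 1) ^ k * ((words k L).filter fun w => f w = y).card <
      ∑ y ∈ Fintype.piFinset (fun _ : Fin k => range (L + 1)), k ^ L := by
    refine sum_lt_sum_of_nonempty ?_ h2
    rw [← card_pos, hcard]
    positivity
  rw [← Finset.mul_sum, ← h1, Finset.sum_const, hcard, card_words, smul_eq_mul] at h3
  exact lt_irrefl _ h3

end Pool.Agent.V5helper56.SY
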